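import Pool.Agent.H614.WS.Bad

set_option autoImplicit false
set_option linter.unusedSectionVars false

open Polynomial Finset

namespace Pool.Agent.H614.WS

variable {F : Type} [Field F]

/-- The polynomial part of `α g`, where `α = ∑ α_i t^(-i-1)`: it is linear in `g`, and the
polynomial part of `α t^l` is `∑_{i < l} α_(l-1-i) t^i`. -/
noncomputable def ip (α : ℕ → F) (g : F[X]) : F[X] :=
  g.sum fun l c => C c * ∑ i ∈ range l, C (α (l - 1 - i)) * X ^ i

theorem ip_add (α : ℕ → F) (P R : F[X]) : ip α (P + R) = ip α P + ip α R := by
  unfold ip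
  rw [Polynomial.sum_add_index]
  · intro i; simp
  · intro i a b; rw [C_add]; ring

theorem ip_mono (α : ℕ → F) (n : ℕ) (c : F) :
    ip α (C c * X ^ n) = C c * ∑ i ∈ range n, C (α (n - 1 - i)) * X ^ i := by
  unfold ip
  rw [C_mul_X_pow_eq_monomial, Polynomial.sum_monomial_index]
  simp

/-- multiplication by `t` -/
theorem ip_X_mul (α : ℕ → F) (g : F[X]) : ip α (X * g) = X * ip α g + C (res α g) := by
  induction g using Polynomial.induction_on' with
  | add p q hp hq => rw [mul_add, ip_add, ip_add, res_add, hp, hq, C_add]; ring
  | monomial n c =>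
    have e : X * (monomial n c : F[X]) = C c * X ^ (n + 1) := by
      rw [← C_mul_X_pow_eq_monomial, pow_succ]; ring
    rw [e, ip_mono, ← C_mul_X_pow_eq_monomial, ip_mono, res_monomial, Finset.sum_range_succ']
    have : ∑ i ∈ range n, C (α (n + 1 - 1 - (i + 1))) * X ^ (i + 1)
        = X * ∑ i ∈ range n, (C (α (n - 1 - i)) * X ^ i : F[X]) := by
      rw [Finset.mul_sum]
      refine Finset.sum_congr rfl (fun i _ => ?_)
      have : n + 1 - 1 - (i + 1) = n - 1 - i := by omega
      rw [this, pow_succ]; ring
    rw [this]
    simp only [Nat.add_sub_cancel, Nat.sub_zero, pow_zero, mul_one, C_mul]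
    ring

/-- The fractional digits of `α g`. -/
noncomputable def fr (α : ℕ → F) (g : F[X]) : ℕ → F := fun j => res α (X ^ j * g)

theorem ip_mul (α : ℕ → F) (e g : F[X]) : ip α (e * g) = e * ip α g + ip (fr α g) e := by
  induction e using Polynomial.induction_on' with
  | add p q hp hq => rw [add_mul, ip_add, ip_add, hp, hq]; ring
  | monomial n c =>
    induction n generalizing c with
    | zero =>
      have h0 : ip (fr α g) (monomial 0 c) = 0 := by
        rw [← C_mul_X_pow_eq_monomial, ip_mono]; simp
      rw [h0, monomial_zero_left, add_zero]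
      -- ip α (C c * g) = C c * ip α g
      induction g using Polynomial.induction_on' with
      | add p q hp hq =>
        rw [mul_add, ip_add, ip_add, mul_add]
        rw [hp (by rw [← C_mul_X_pow_eq_monomial, ip_mono]; simp),
          hq (by rw [← C_mul_X_pow_eq_monomial, ip_mono]; simp)]
      | monomial m d =>
        have e1 : C c * (monomial m d : F[X]) = C (c * d) * X ^ m := by
          rw [← C_mul_X_pow_eq_monomial, C_mul]; ring
        rw [e1, ip_mono, ← C_mul_X_pow_eq_monomial, ip_mono, C_mul]; ring
    | succ n ih =>
      have e1 : (monomial (n + 1) c : F[X]) * g = X * (monomial n c * g) := by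
        rw [← C_mul_X_pow_eq_monomial, ← C_mul_X_pow_eq_monomial, pow_succ]; ring
      have e2 : (monomial (n + 1) c : F[X]) = X * monomial n c := by
        rw [← C_mul_X_pow_eq_monomial, ← C_mul_X_pow_eq_monomial, pow_succ]; ring
      rw [e1, ip_X_mul, ih, e2, ip_X_mul]
      have e3 : res (fr α g) (monomial n c) = res α (monomial n c * g) := by
        rw [← C_mul_X_pow_eq_monomial, res_monomial]
        unfold fr
        have : C c * X ^ n * g = C c * (X ^ n * g) := by ring
        rw [this]
        -- res α (C c * P) = c * res α P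
        generalize X ^ n * g = P
        induction P using Polynomial.induction_on' with
        | add p q hp hq => rw [mul_add, res_add, res_add, mul_add, hp, hq]
        | monomial m d =>
          have e1 : C c * (monomial m d : F[X]) = C (c * d) * X ^ m := by
            rw [← C_mul_X_pow_eq_monomial, C_mul]; ring
          rw [e1, res_monomial, ← C_mul_X_pow_eq_monomial, res_monomial]; ring
      rw [e3]
      ring

theorem coeff_ip (β : ℕ → F) (e : F[X]) (i : ℕ) :
    (ip β e).coeff i = ∑ l ∈ range (e.natDegree + 1), if i < l then e.coeff l * β (l - 1 - i) else 0 := by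
  unfold ip
  rw [Polynomial.sum_over_range _ (fun n => by simp), Polynomial.finsetSum_coeff]
  refine Finset.sum_congr rfl (fun l _ => ?_)
  rw [coeff_C_mul, Polynomial.finsetSum_coeff]
  split_ifs with h
  · rw [Finset.sum_eq_single i]
    · simp
    · intro b _ hb
      rw [coeff_C_mul, coeff_X_pow, if_neg (fun h => hb h.symm), mul_zero]
    · intro h0
      exact absurd (Finset.mem_range.mpr h) h0
  · rw [Finset.sum_eq_zero, mul_zero]
    intro b hb
    have := Finset.mem_range.mp hb
    rw [coeff_C_mul, coeff_X_pow, if_neg (by omega), mul_zero]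

theorem first_zero (β : ℕ → F) (e : F[X]) (he : e ≠ 0) (h : ip β e = 0) :
    ∀ j, j < e.natDegree → β j = 0 := by
  intro j
  induction j using Nat.strong_induction_on with
  | _ j ih =>
    intro hj
    have h1 : (ip β e).coeff (e.natDegree - 1 - j) = 0 := by rw [h]; simp
    rw [coeff_ip, Finset.sum_range_succ] at h1
    rw [if_pos (by omega)] at h1
    have e1 : e.natDegree - 1 - (e.natDegree - 1 - j) = j := by omega
    rw [e1, Finset.sum_eq_zero, zero_add] at h1
    · rcases mul_eq_zero.mp h1 with h2 | h2
      · exact absurd (Polynomial.leadingCoeff_eq_zero.mp h2) he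
      · exact h2
    · intro l hl
      have := Finset.mem_range.mp hl
      split_ifs with h3
      · rw [ih (l - 1 - (e.natDegree - 1 - j)) (by omega) (by omega), mul_zero]
      · rfl

theorem more_zero (α : ℕ → F) (e g : F[X]) (he : e ≠ 0) (N : ℕ)
    (h1 : ∀ j, j < e.natDegree → fr α g j = 0) (h2 : ∀ j, j < N → res α (X ^ j * (e * g)) = 0) :
    ∀ j, j < N + e.natDegree → fr α g j = 0 := by
  intro j
  induction j using Nat.strong_induction_on with
  | _ j ih =>
    intro hj
    by_cases hjd : j < e.natDegree
    · exact h1 j hjd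
    · push Not at hjd
      have h3 := h2 (j - e.natDegree) (by omega)
      have e1 : X ^ (j - e.natDegree) * (e * g)
          = ∑ l ∈ range (e.natDegree + 1), C (e.coeff l) * (X ^ (l + (j - e.natDegree)) * g) := by
        generalize j - e.natDegree = k
        conv_lhs => rw [Polynomial.as_sum_range_C_mul_X_pow e]
        rw [Finset.sum_mul, Finset.mul_sum]
        refine Finset.sum_congr rfl (fun l _ => ?_)
        rw [pow_add]; ring
      have hC : ∀ (c : F) (P : F[X]), res α (C c * P) = c * res α P := by
        intro c P
        induction P using Polynomial.induction_on' with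
        | add p q hp hq => rw [mul_add, res_add, res_add, mul_add, hp, hq]
        | monomial m d =>
          have e1 : C c * (monomial m d : F[X]) = C (c * d) * X ^ m := by
            rw [← C_mul_X_pow_eq_monomial, C_mul]; ring
          rw [e1, res_monomial, ← C_mul_X_pow_eq_monomial, res_monomial]; ring
      rw [e1, res_sum, Finset.sum_range_succ, Finset.sum_eq_zero, zero_add, hC] at h3
      · have e2 : e.natDegree + (j - e.natDegree) = j := by omega
        rw [e2] at h3
        rcases mul_eq_zero.mp h3 with h4 | h4
        · exact absurd (Polynomial.leadingCoeff_eq_zero.mp h4) he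
        · exact h4
      · intro l hl
        have := Finset.mem_range.mp hl
        rw [hC]
        have h5 := ih (l + (j - e.natDegree)) (by omega) (by omega)
        unfold fr at h5
        rw [h5, mul_zero]

/-- Dirichlet's theorem with coprime numerator and denominator. -/
theorem dirichlet [Fintype F] (α : ℕ → F) (N : ℕ) :
    ∃ g : F[X], g ≠ 0 ∧ g.natDegree ≤ N ∧ IsCoprime (ip α g) g ∧
      ∀ j, j < N → res α (X ^ j * g) = 0 := by
  classical
  -- existence
  have hex : ∃ d : ℕ, ∃ g : F[X], g ≠ 0 ∧ g.natDegree = d ∧ d ≤ N ∧ ∀ j, j < N → res α (X ^ j * g) = 0 := by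
    have hcard : Fintype.card (Fin N → F) < Fintype.card (Fin (N + 1) → F) := by
      simp only [Fintype.card_fun, Fintype.card_fin]
      exact Nat.pow_lt_pow_right Fintype.one_lt_card (Nat.lt_succ_self N)
    obtain ⟨v, w, hne, heq⟩ := Fintype.exists_ne_map_eq_of_card_lt
      (fun (v : Fin (N + 1) → F) (j : Fin N) => res α (X ^ (j : ℕ) * pol v)) hcard
    have hpol : pol (fun i => v i - w i) = pol v - pol w := by
      unfold pol
      rw [← Finset.sum_sub_distrib]
      refine Finset.sum_congr rfl (fun i _ => ?_)
      rw [C_sub]; ring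
    have hne0 : pol (fun i => v i - w i) ≠ 0 := by
      intro h0
      apply hne
      funext i
      have := coeff_pol (fun i => v i - w i) i
      rw [h0, coeff_zero] at this
      exact (sub_eq_zero.mp this.symm)
    refine ⟨_, pol (fun i => v i - w i), hne0, rfl, ?_, ?_⟩
    · apply Nat.lt_succ_iff.mp
      rw [Polynomial.natDegree_lt_iff_degree_lt hne0, Polynomial.degree_lt_iff_coeff_zero]
      intro m hm
      exact coeff_pol_ge _ m hm
    · intro j hj
      have h1 := congrFun heq ⟨j, hj⟩
      simp only at h1
      have h2 : X ^ j * pol v = X ^ j * pol (fun i => v i - w i) + X ^ j * pol w := by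
        rw [hpol]; ring
      rw [h2, res_add] at h1
      exact (add_eq_right.mp h1)
  obtain ⟨g, hg0, hgd, hgN, hg⟩ := Nat.find_spec hex
  have hmin : ∀ g' : F[X], g' ≠ 0 → g'.natDegree < g.natDegree →
      ¬ (∀ j, j < N → res α (X ^ j * g') = 0) := by
    intro g' h0 hd hj
    rw [hgd] at hd
    exact Nat.find_min hex hd ⟨g', h0, rfl, by omega, hj⟩
  refine ⟨g, hg0, by omega, ?_, hg⟩
  refine isCoprime_of_dvd _ _ (fun h => hg0 h.2) ?_
  intro e heu he0 he1 he2
  obtain ⟨g', rfl⟩ := he2
  have hg'0 : g' ≠ 0 := right_ne_zero_of_mul hg0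
  have hed : 0 < e.natDegree := by
    rcases Nat.eq_zero_or_pos e.natDegree with h | h
    · exfalso
      apply heu
      rw [Polynomial.natDegree_eq_zero] at h
      obtain ⟨c, rfl⟩ := h
      rw [Polynomial.isUnit_C]
      exact (Polynomial.C_ne_zero.mp he0).isUnit
    · exact h
  -- `e` divides the polynomial part of `e * fr`
  have h1 : e ∣ ip (fr α g') e := by
    rw [ip_mul] at he1
    exact (dvd_add_right (dvd_mul_right e _)).mp he1
  have h2 : ip (fr α g') e = 0 := by
    by_contra hne
    have h3 := Polynomial.natDegree_le_of_dvd h1 hne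
    have h4 : (ip (fr α g') e).natDegree < e.natDegree := by
      rw [Polynomial.natDegree_lt_iff_degree_lt hne, Polynomial.degree_lt_iff_coeff_zero]
      intro m hm
      rw [coeff_ip]
      refine Finset.sum_eq_zero (fun l hl => ?_)
      have := Finset.mem_range.mp hl
      rw [if_neg (by omega)]
    omega
  have h3 := first_zero _ e he0 h2
  have h4 := more_zero α e g' he0 N h3 hg
  apply hmin g' hg'0
  · rw [Polynomial.natDegree_mul he0 hg'0]; omega
  · intro j hj
    exact h4 j (by omega)

end Pool.Agent.H614.WS
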