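import Pool.Agent.H614.WS.Descend

set_option autoImplicit false
set_option linter.unusedSectionVars false

open Polynomial Finset

namespace Pool.Agent.H614.WS

variable {F : Type} [Field F]

/-- badly approximable with a given constant -/
def BadC (α : ℕ → F) (c : ℕ) : Prop :=
  ∀ g : F[X], g ≠ 0 → ∃ j ≤ g.natDegree + c, res α (X ^ j * g) ≠ 0

theorem res_X_pow_mul (α : ℕ → F) (g : F[X]) (j n : ℕ) (hn : g.natDegree < n) :
    res α (X ^ j * g) = ∑ i ∈ range n, g.coeff i * α (i + j) := by
  have h : X ^ j * g = ∑ i ∈ range n, C (g.coeff i) * X ^ (i + j) := by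
    conv_lhs => rw [Polynomial.as_sum_range_C_mul_X_pow' g hn]
    rw [Finset.mul_sum]
    refine Finset.sum_congr rfl (fun i _ => ?_)
    rw [pow_add]; ring
  rw [h, res_sum]
  exact Finset.sum_congr rfl (fun i _ => res_monomial _ _ _)

theorem coeff_pol {N : ℕ} (v : Fin N → F) (i : Fin N) : (pol v).coeff i = v i := by
  unfold pol
  rw [Polynomial.finsetSum_coeff, Finset.sum_eq_single i]
  · simp
  · intro j _ hne
    rw [coeff_C_mul, coeff_X_pow, if_neg, mul_zero]
    intro h
    exact hne (Fin.ext h.symm)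
  · intro h
    exact absurd (Finset.mem_univ i) h

theorem coeff_pol_ge {N : ℕ} (v : Fin N → F) (i : ℕ) (hi : N ≤ i) : (pol v).coeff i = 0 := by
  unfold pol
  rw [Polynomial.finsetSum_coeff]
  refine Finset.sum_eq_zero (fun j _ => ?_)
  rw [coeff_C_mul, coeff_X_pow, if_neg, mul_zero]
  intro h
  have := j.isLt
  omega

theorem Inj_of_bad (γ : ℕ → F) (c M L : ℕ) (h : BadC γ c) (hL : M + c ≤ L) : Inj γ M L := by
  intro z hz
  by_contra hne
  obtain ⟨i, hi⟩ := Function.ne_iff.mp hne
  have hp : pol z ≠ 0 := by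
    intro h0
    apply hi
    rw [← coeff_pol z i, h0]
    simp
  have hdeg : (pol z).natDegree < M := by
    rw [Polynomial.natDegree_lt_iff_degree_lt hp, Polynomial.degree_lt_iff_coeff_zero]
    intro m hm
    exact coeff_pol_ge z m hm
  obtain ⟨j, hj, hne2⟩ := h (pol z) hp
  apply hne2
  rw [res_X_pow_mul γ (pol z) j M hdeg, Finset.sum_range]
  rw [← hz j (by omega)]
  refine Finset.sum_congr rfl (fun m _ => ?_)
  rw [coeff_pol, add_comm j]

theorem sum_range_mul (n K : ℕ) (f : ℕ → F) :
    ∑ l ∈ range (n * K), f l = ∑ m ∈ range K, ∑ a ∈ range n, f (n * m + a) := by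
  induction K with
  | zero => simp
  | succ K ih => rw [Nat.mul_succ, Finset.sum_range_add, ih, Finset.sum_range_succ]

theorem bad_pw (γ : ℕ → F) (c n : ℕ) (hn : 1 ≤ n) (h : BadC γ c) :
    BadC (pw n γ) (n * c + n - 1) := by
  intro g hg
  set d := g.natDegree with hd
  set i := d % n with hi
  set K := d / n with hK
  have hin : i < n := Nat.mod_lt _ hn
  have hdi : n * K + i = d := Nat.div_add_mod d n
  let G : F[X] := ∑ m ∈ range (K + 1), C (g.coeff (n * m + i)) * X ^ m
  have hGc : ∀ m ≤ K, G.coeff m = g.coeff (n * m + i) := by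
    intro m hm
    simp only [G]
    rw [Polynomial.finsetSum_coeff, Finset.sum_eq_single m]
    · simp
    · intro b _ hb
      rw [coeff_C_mul, coeff_X_pow, if_neg (fun h => hb h.symm), mul_zero]
    · intro h0
      exact absurd (Finset.mem_range.mpr (Nat.lt_succ_of_le hm)) h0
  have hG0 : G ≠ 0 := by
    intro h0
    have := hGc K le_rfl
    rw [h0, hdi] at this
    simp only [coeff_zero] at this
    exact hg (Polynomial.leadingCoeff_eq_zero.mp (by rw [Polynomial.leadingCoeff, ← hd]; exact this.symm))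
  have hGdeg : G.natDegree ≤ K := by
    refine Polynomial.natDegree_sum_le_of_forall_le _ _ (fun m hm => ?_)
    exact (Polynomial.natDegree_C_mul_X_pow_le _ _).trans (Nat.lt_succ_iff.mp (Finset.mem_range.mp hm))
  obtain ⟨j, hj, hne⟩ := h G hG0
  have hs : i + 1 ≤ n * (1 + j) := by nlinarith
  refine ⟨n * (1 + j) - i - 1, ?_, ?_⟩
  · have h1 : n * (1 + j) ≤ n * (1 + (K + c)) := Nat.mul_le_mul_left _ (by omega)
    have h2 : n * (1 + (K + c)) = n + n * K + n * c := by ring
    omega
  · rw [res_X_pow_mul _ g _ (n * (K + 1)) (by rw [← hd, ← hdi, Nat.mul_succ]; omega)]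
    rw [res_X_pow_mul γ G j (K + 1) (by omega)] at hne
    have key : ∑ l ∈ range (n * (K + 1)), g.coeff l * pw n γ (l + (n * (1 + j) - i - 1))
        = ∑ m ∈ range (K + 1), G.coeff m * γ (m + j) := by
      rw [sum_range_mul]
      refine Finset.sum_congr rfl (fun m hm => ?_)
      rw [Finset.sum_eq_single i]
      · rw [hGc m (Nat.lt_succ_iff.mp (Finset.mem_range.mp hm))]
        congr 1
        have e : n * m + i + (n * (1 + j) - i - 1) + 1 = n * (m + j + 1) := by
          have : n * (m + j + 1) = n * m + n * (1 + j) := by ring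
          omega
        unfold pw
        rw [e, if_pos (dvd_mul_right _ _), Nat.mul_div_cancel_left _ hn]
        rfl
      · intro a ha hai
        have han := Finset.mem_range.mp ha
        have e : n * m + a + (n * (1 + j) - i - 1) + 1 = n * (m + j) + (n + a - i) := by
          have : n * (m + j) + n = n * m + n * (1 + j) := by ring
          omega
        unfold pw
        rw [e, if_neg, mul_zero]
        intro hdv
        have hdv2 : n ∣ (n + a - i) := (Nat.dvd_add_right (dvd_mul_right _ _)).mp hdv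
        obtain ⟨w, hw⟩ := hdv2
        rcases Nat.lt_or_ge w 2 with hw2 | hw2
        · interval_cases w
          · omega
          · apply hai; omega
        · have : n * 2 ≤ n * w := Nat.mul_le_mul_left _ hw2
          omega
      · intro h0
        exact absurd (Finset.mem_range.mpr hin) h0
    rw [key]
    exact hne

theorem pw_one (γ : ℕ → F) : pw 1 γ = γ := by
  funext l
  simp [pw]

theorem pw_pw (γ : ℕ → F) (a b : ℕ) (ha : 1 ≤ a) : pw a (pw b γ) = pw (a * b) γ := by
  funext l
  unfold pw
  by_cases h1 : a ∣ l + 1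
  · obtain ⟨w, hw⟩ := h1
    have hw0 : 1 ≤ w := by
      rcases Nat.eq_zero_or_pos w with h | h
      · rw [h] at hw; omega
      · exact h
    rw [if_pos ⟨w, hw⟩, hw, Nat.mul_div_cancel_left _ ha, Nat.sub_add_cancel hw0]
    by_cases h2 : b ∣ w
    · rw [if_pos h2, if_pos (Nat.mul_dvd_mul_left a h2), Nat.mul_div_mul_left _ _ ha]
    · rw [if_neg h2, if_neg (fun h => h2 (Nat.dvd_of_mul_dvd_mul_left ha h))]
  · rw [if_neg h1, if_neg (fun h => h1 ((dvd_mul_right a b).trans h))]

end Pool.Agent.H614.WS
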