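import Pool.Agent.H614.WS.Defs

set_option autoImplicit false

open Polynomial Finset

namespace Pool.Agent.H614.WS

variable {F : Type} [Field F]

theorem res_zero (α : ℕ → F) : res α 0 = 0 := by simp [res]

theorem res_add (α : ℕ → F) (P R : F[X]) : res α (P + R) = res α P + res α R := by
  unfold res
  rw [Polynomial.sum_add_index]
  · intro i; simp
  · intro i a b; ring

theorem res_monomial (α : ℕ → F) (n : ℕ) (c : F) : res α (C c * X ^ n) = c * α n := by
  unfold res
  rw [C_mul_X_pow_eq_monomial, Polynomial.sum_monomial_index]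
  simp

theorem res_sum {ι : Type*} (α : ℕ → F) (s : Finset ι) (f : ι → F[X]) :
    res α (∑ i ∈ s, f i) = ∑ i ∈ s, res α (f i) := by
  classical
  induction s using Finset.induction_on with
  | empty => simp [res_zero]
  | insert a s ha ih => rw [Finset.sum_insert ha, Finset.sum_insert ha, res_add, ih]

theorem res_range (α : ℕ → F) (P : F[X]) (n : ℕ) (h : P.natDegree < n) :
    res α P = ∑ i ∈ range n, P.coeff i * α i := by
  unfold res
  exact Polynomial.sum_over_range' P (fun i => by simp) n h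

theorem res_pol {N : ℕ} (ξ : ℕ → F) (v : Fin N → F) :
    res ξ (pol v) = ∑ i : Fin N, v i * ξ i := by
  unfold pol
  rw [res_sum]
  exact Finset.sum_congr rfl (fun i _ => res_monomial ξ _ _)

theorem pow_card_pow_eq_expand [Fintype F] (f : F[X]) (b : ℕ) :
    f ^ (Fintype.card F ^ b) = expand F (Fintype.card F ^ b) f := by
  induction b with
  | zero => simp
  | succ b ih =>
    rw [pow_succ, pow_mul, ih, ← FiniteField.expand_card, Polynomial.expand_expand, mul_comm]

/-- The phase is a quadratic form in the coefficients of `x`. -/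
theorem res_pow [Fintype F] {N : ℕ} (α : ℕ → F) (v : Fin N → F) (Q b : ℕ)
    (hQ : Q = Fintype.card F ^ b) :
    res α (pol v ^ (Q + 1)) = ∑ i : Fin N, ∑ j : Fin N, v i * v j * α (Q * i + j) := by
  have h : pol v ^ Q = ∑ i : Fin N, C (v i) * X ^ (Q * (i : ℕ)) := by
    rw [hQ, pow_card_pow_eq_expand, ← hQ]
    unfold pol
    rw [map_sum]
    refine Finset.sum_congr rfl (fun i _ => ?_)
    rw [map_mul, expand_C, map_pow, expand_X, ← pow_mul]
  rw [pow_succ, h]
  unfold pol
  rw [Finset.sum_mul, res_sum]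
  refine Finset.sum_congr rfl (fun i _ => ?_)
  rw [Finset.mul_sum, res_sum]
  refine Finset.sum_congr rfl (fun j _ => ?_)
  have : C (v i) * X ^ (Q * (i : ℕ)) * (C (v j) * X ^ (j : ℕ))
      = C (v i * v j) * X ^ (Q * (i : ℕ) + j) := by
    rw [C_mul, pow_add]; ring
  rw [this, res_monomial]

/-- The quadratic exponential sum. -/
noncomputable def T [Fintype F] (ψ : AddChar F ℂ) (Q N : ℕ) (α ξ : ℕ → F) : ℂ :=
  ∑ v : Fin N → F, ψ (∑ i : Fin N, v i * (∑ j : Fin N, v j * α (Q * i + j) + ξ i))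

theorem S_eq_T [Fintype F] (ψ : AddChar F ℂ) (Q b N : ℕ) (hQ : Q = Fintype.card F ^ b)
    (α ξ : ℕ → F) : S ψ (Q + 1) N α ξ = T ψ Q N α ξ := by
  unfold S T
  refine Finset.sum_congr rfl (fun v _ => ?_)
  rw [res_pow α v Q b hQ, res_pol, ← Finset.sum_add_distrib]
  refine congrArg ψ (Finset.sum_congr rfl (fun i _ => ?_))
  rw [mul_add, Finset.mul_sum]
  refine congrArg (· + _) (Finset.sum_congr rfl (fun j _ => ?_))
  ring

theorem psi_sum {ι : Type*} (ψ : AddChar F ℂ) (s : Finset ι) (f : ι → F) :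
    ψ (∑ p ∈ s, f p) = ∏ p ∈ s, ψ (f p) := by
  classical
  induction s using Finset.induction_on with
  | empty => simp
  | insert a s ha ih =>
    rw [Finset.sum_insert ha, Finset.prod_insert ha, AddChar.map_add_eq_mul, ih]

/-- Orthogonality. -/
theorem sum_char [Fintype F] [DecidableEq F] {ι : Type*} [Fintype ι] [DecidableEq ι]
    (ψ : AddChar F ℂ) (hψ : ψ ≠ 1) (L : ι → F) :
    (∑ Y : ι → F, ψ (∑ p, Y p * L p))
      = if L = 0 then (Fintype.card F : ℂ) ^ Fintype.card ι else 0 := by
  have hprim : ψ.IsPrimitive := AddChar.IsPrimitive.of_ne_one hψ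
  have h1 : (∑ Y : ι → F, ψ (∑ p, Y p * L p)) = ∏ p : ι, ∑ y : F, ψ (y * L p) := by
    rw [Finset.prod_univ_sum, Fintype.piFinset_univ]
    refine Finset.sum_congr rfl (fun Y _ => ?_)
    rw [psi_sum]
  rw [h1]
  have h2 : ∀ p : ι, (∑ y : F, ψ (y * L p)) = if L p = 0 then (Fintype.card F : ℂ) else 0 := by
    intro p
    have := AddChar.sum_mulShift (L p) hprim
    rw [this]
    split_ifs <;> simp
  simp_rw [h2]
  split_ifs with h
  · subst h
    simp
  · obtain ⟨p, hp⟩ := Function.ne_iff.mp h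
    exact Finset.prod_eq_zero (Finset.mem_univ p) (if_neg hp)

end Pool.Agent.H614.WS
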