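import Pool.Agent.H614.WS.Bad

set_option autoImplicit false
set_option linter.unusedSectionVars false

open Polynomial Finset

namespace Pool.Agent.H614.WS

variable {F : Type} [Field F] [Fintype F] [DecidableEq F]

theorem T_le (ψ : AddChar F ℂ) (Q N : ℕ) (α ξ : ℕ → F) :
    ‖T ψ Q N α ξ‖ ≤ (Fintype.card F : ℝ) ^ N := by
  unfold T
  refine (norm_sum_le _ _).trans ?_
  simp [AddChar.norm_apply]

/-- The maximum over the linear coefficient is non-decreasing in `N`. -/
theorem T_mono (ψ : AddChar F ℂ) (hψ : ψ ≠ 1) (Q N : ℕ) (α ξ : ℕ → F) :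
    ∃ ξ' : ℕ → F, ‖T ψ Q N α ξ‖ ≤ ‖T ψ Q (N + 1) α ξ'‖ := by
  let Xc : F → ℕ → F := fun c i => if i = N then ξ i + c else ξ i
  have hsum : ∑ c : F, T ψ Q (N + 1) α (Xc c) = (Fintype.card F : ℂ) * T ψ Q N α ξ := by
    unfold T
    have e : ∀ (c : F) (v : Fin (N + 1) → F),
        ψ (∑ i : Fin (N + 1), v i * (∑ j : Fin (N + 1), v j * α (Q * i + j) + Xc c i))
          = ψ (∑ i : Fin (N + 1), v i * (∑ j : Fin (N + 1), v j * α (Q * i + j) + ξ i))
            * ψ (c * v (Fin.last N)) := by
      intro c v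
      rw [← AddChar.map_add_eq_mul]
      congr 1
      have : ∀ i : Fin (N + 1), v i * (∑ j : Fin (N + 1), v j * α (Q * i + j) + Xc c i)
          = v i * (∑ j : Fin (N + 1), v j * α (Q * i + j) + ξ i)
            + (if i = Fin.last N then c * v (Fin.last N) else 0) := by
        intro i
        by_cases hi : i = Fin.last N
        · rw [if_pos hi]
          have : (i : ℕ) = N := by rw [hi]; simp
          have hX : Xc c (i : ℕ) = ξ i + c := by
            simp only [Xc]
            rw [if_pos this]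
          rw [hX, hi]
          ring
        · rw [if_neg hi, add_zero]
          have : (i : ℕ) ≠ N := fun h => hi (Fin.ext (by simpa using h))
          simp only [Xc, if_neg this]
      simp_rw [this]
      rw [Finset.sum_add_distrib]
      simp
    simp_rw [e]
    rw [Finset.sum_comm]
    have hprim : ψ.IsPrimitive := AddChar.IsPrimitive.of_ne_one hψ
    have h2 : ∀ v : Fin (N + 1) → F,
        ∑ c : F, ψ (∑ i : Fin (N + 1), v i * (∑ j : Fin (N + 1), v j * α (Q * i + j) + ξ i))
            * ψ (c * v (Fin.last N))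
        = if v (Fin.last N) = 0 then (Fintype.card F : ℂ) *
          ψ (∑ i : Fin (N + 1), v i * (∑ j : Fin (N + 1), v j * α (Q * i + j) + ξ i)) else 0 := by
      intro v
      rw [← Finset.mul_sum, AddChar.sum_mulShift _ hprim]
      split_ifs <;> simp [mul_comm]
    simp_rw [h2]
    rw [← (Fin.snocEquiv (fun _ : Fin (N + 1) => F)).sum_comp, Fintype.sum_prod_type,
      Finset.sum_eq_single (0 : F)]
    · rw [Finset.mul_sum]
      refine Finset.sum_congr rfl (fun u _ => ?_)
      simp [Fin.snocEquiv, Fin.sum_univ_castSucc]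
    · intro b _ hb
      refine Finset.sum_eq_zero (fun u _ => ?_)
      rw [if_neg]
      simpa [Fin.snocEquiv] using hb
    · intro h
      exact absurd (Finset.mem_univ _) h
  by_contra hcon
  push Not at hcon
  have hq : (0 : ℝ) < Fintype.card F := by exact_mod_cast Fintype.card_pos
  have h1 : (Fintype.card F : ℝ) * ‖T ψ Q N α ξ‖ ≤ ∑ c : F, ‖T ψ Q (N + 1) α (Xc c)‖ := by
    have := norm_sum_le (Finset.univ : Finset F) (fun c => T ψ Q (N + 1) α (Xc c))
    rw [hsum, norm_mul, Complex.norm_natCast] at this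
    exact this
  have h2 : ∑ c : F, ‖T ψ Q (N + 1) α (Xc c)‖ < ∑ _c : F, ‖T ψ Q N α ξ‖ :=
    Finset.sum_lt_sum_of_nonempty ⟨0, Finset.mem_univ _⟩ (fun c _ => hcon (Xc c))
  rw [Finset.sum_const, Finset.card_univ, nsmul_eq_mul] at h2
  linarith

theorem T_mono' (ψ : AddChar F ℂ) (hψ : ψ ≠ 1) (Q N N' : ℕ) (h : N ≤ N') (α ξ : ℕ → F) :
    ∃ ξ' : ℕ → F, ‖T ψ Q N α ξ‖ ≤ ‖T ψ Q N' α ξ'‖ := by
  induction N', h using Nat.le_induction with
  | base => exact ⟨ξ, le_rfl⟩
  | succ n hn ih =>
    obtain ⟨ξ1, h1⟩ := ih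
    obtain ⟨ξ2, h2⟩ := T_mono ψ hψ Q n α ξ1
    exact ⟨ξ2, h1.trans h2⟩

/-- Parseval. -/
theorem T_parseval (ψ : AddChar F ℂ) (hψ : ψ ≠ 1) (Q N : ℕ) (α : ℕ → F) :
    ∃ ξ : ℕ → F, (Fintype.card F : ℝ) ^ N ≤ ‖T ψ Q N α ξ‖ ^ 2 := by
  let ext : (Fin N → F) → ℕ → F := fun x i => if h : i < N then x ⟨i, h⟩ else 0
  let A : (Fin N → F) → F := fun v => ∑ i : Fin N, v i * (∑ j : Fin N, v j * α (Q * i + j))
  have hT : ∀ x : Fin N → F, T ψ Q N α (ext x) = ∑ v : Fin N → F, ψ (A v) * ψ (∑ i, x i * v i) := by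
    intro x
    unfold T
    refine Finset.sum_congr rfl (fun v _ => ?_)
    rw [← AddChar.map_add_eq_mul]
    congr 1
    simp only [A]
    rw [← Finset.sum_add_distrib]
    refine Finset.sum_congr rfl (fun i _ => ?_)
    have : ext x (i : ℕ) = x i := by simp [ext]
    rw [this]; ring
  have hsum : (∑ x : Fin N → F, (‖T ψ Q N α (ext x)‖ ^ 2 : ℝ) : ℝ)
      = (Fintype.card F : ℝ) ^ N * (Fintype.card F : ℝ) ^ N := by
    have hc : ((∑ x : Fin N → F, (‖T ψ Q N α (ext x)‖ ^ 2 : ℝ) : ℝ) : ℂ)
        = ((Fintype.card F : ℂ) ^ N * (Fintype.card F : ℂ) ^ N) := by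
      push_cast
      have e1 : ∀ x : Fin N → F, ((‖T ψ Q N α (ext x)‖ : ℂ)) ^ 2
          = ∑ v : Fin N → F, ∑ w : Fin N → F, ψ (A v - A w) * ψ (∑ i, x i * (v i - w i)) := by
        intro x
        rw [← Complex.mul_conj', hT x, map_sum, Finset.sum_mul_sum]
        refine Finset.sum_congr rfl (fun v _ => Finset.sum_congr rfl (fun w _ => ?_))
        rw [map_mul, ← AddChar.map_neg_eq_conj, ← AddChar.map_neg_eq_conj,
          ← AddChar.map_add_eq_mul, ← AddChar.map_add_eq_mul, ← AddChar.map_add_eq_mul,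
          ← AddChar.map_add_eq_mul]
        congr 1
        have : ∑ i, x i * (v i - w i) = ∑ i, x i * v i - ∑ i, x i * w i := by
          rw [← Finset.sum_sub_distrib]
          exact Finset.sum_congr rfl (fun i _ => by ring)
        rw [this]; ring
      simp_rw [e1]
      rw [Finset.sum_comm]
      have e2 : ∀ v : Fin N → F, (∑ x : Fin N → F, ∑ w : Fin N → F,
          ψ (A v - A w) * ψ (∑ i, x i * (v i - w i))) = (Fintype.card F : ℂ) ^ N := by
        intro v
        rw [Finset.sum_comm]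
        rw [Finset.sum_eq_single v]
        · rw [← Finset.mul_sum, sum_char ψ hψ (fun i => v i - v i), if_pos]
          · simp
          · funext i; simp
        · intro w _ hw
          rw [← Finset.mul_sum, sum_char ψ hψ (fun i => v i - w i), if_neg, mul_zero]
          intro h0
          apply hw
          funext i
          have := congrFun h0 i
          simp only [Pi.zero_apply] at this
          exact (sub_eq_zero.mp this).symm
        · intro h
          exact absurd (Finset.mem_univ _) h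
      simp_rw [e2]
      simp
    exact_mod_cast hc
  by_contra hcon
  push Not at hcon
  have : (∑ x : Fin N → F, (‖T ψ Q N α (ext x)‖ ^ 2 : ℝ)) < ∑ _x : Fin N → F, (Fintype.card F : ℝ) ^ N :=
    Finset.sum_lt_sum_of_nonempty ⟨0, Finset.mem_univ _⟩ (fun x _ => hcon (ext x))
  rw [hsum, Finset.sum_const, Finset.card_univ, nsmul_eq_mul] at this
  simp at this

end Pool.Agent.H614.WS
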