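import Mathlib

/-! # Weyl sums over `F_q[t]`: definitions

`K = F((1/t))`; an element of the unit disc `α = ∑_{i ≥ 0} α_i t^(-i-1)` is given by its digits
`α : ℕ → F`.  -/

set_option autoImplicit false

open Polynomial

namespace Pool.Agent.H614.WS

variable {F : Type} [Field F]

/-- The residue (coefficient of `t^(-1)`) of `α P`, where `α = ∑ α_i t^(-i-1)` and `P` is a
polynomial in `t`. -/
noncomputable def res (α : ℕ → F) (P : F[X]) : F := P.sum fun i c => c * α i

/-- The polynomial `v_0 + v_1 t + ... + v_(N-1) t^(N-1)`. -/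
noncomputable def pol {N : ℕ} (v : Fin N → F) : F[X] := ∑ i : Fin N, C (v i) * X ^ (i : ℕ)

/-- The Weyl sum `∑ e(α x^k + ξ x)` over all polynomials `x` of degree `< N`, where
`e(f) = ψ(res f)`. -/
noncomputable def S [Fintype F] (ψ : AddChar F ℂ) (k N : ℕ) (α ξ : ℕ → F) : ℂ :=
  ∑ v : Fin N → F, ψ (res α (pol v ^ k) + res ξ (pol v))

/-- `α` is badly approximable: there is `c` such that for every polynomial `g ≠ 0` the coefficient of
`t^(-1-j)` in `α g` is not zero for some `j ≤ deg g + c`; in other words the distance of `α g` to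
`F[t]` is at least `q^(-1-c) / |g|`. -/
def Bad (α : ℕ → F) : Prop :=
  ∃ c : ℕ, ∀ g : F[X], g ≠ 0 → ∃ j ≤ g.natDegree + c, res α (X ^ j * g) ≠ 0

/-- The digits of `γ^n`, when `n` is a power of the number of elements of `F`:
`γ^n = ∑ γ_i t^(-n(i+1))`. -/
def pw (n : ℕ) (γ : ℕ → F) : ℕ → F := fun l => if n ∣ l + 1 then γ ((l + 1) / n - 1) else 0

end Pool.Agent.H614.WS
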