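import Pool.Agent.H614.WS.Split

set_option autoImplicit false
set_option linter.unusedSectionVars false

open Polynomial Finset

namespace Pool.Agent.H614.WS

variable {F : Type} [Field F] [Fintype F] [DecidableEq F]

/-- the conditions. -/
def Lam {R M : ℕ} (γ ξ : ℕ → F) (y : Fin M × Fin R → F) :
    Fin (M * (R + 1)) × Fin R → F :=
  fun p => ∑ m : Fin M, y (m, p.2.rev) * γ ((p.1 : ℕ) + m) + ξ ((p.2 : ℕ) + (R + 1) * p.1)

/-- the remaining phase. -/
def Phi {R M : ℕ} (γ ξ : ℕ → F) (z : Fin (M * (R + 1)) → F) : F :=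
  ∑ s : Fin (M * (R + 1)), z s * (∑ m : Fin M, z (idx m 0) * γ ((s : ℕ) + m)
    + ξ (R + (R + 1) * s))

theorem T_split (ψ : AddChar F ℂ) (hψ : ψ ≠ 1) (R M : ℕ) (γ ξ : ℕ → F) :
    T ψ (R + 1) (M * (R + 1) * (R + 1)) (pw ((R + 1) ^ 2) γ) ξ
      = (Fintype.card F : ℂ) ^ (M * (R + 1) * R) *
        ∑ y : Fin M × Fin R → F, if Lam γ ξ y = 0 then
          (∑ u : Fin M → F, ψ (Phi γ ξ (joinZero u y))) else 0 := by
  unfold T
  -- step 1: rewrite the inner sums
  have h1 : ∀ v : Fin (M * (R + 1) * (R + 1)) → F,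
      ψ (∑ i, v i * (∑ j, v j * pw ((R + 1) ^ 2) γ ((R + 1) * i + j) + ξ i))
        = ψ (∑ p : Fin (M * (R + 1)) × Fin R, v (idx p.1 p.2.castSucc) *
              (∑ m : Fin M, v (idx (idx m p.2.castSucc.rev) (Fin.last R)) * γ ((p.1 : ℕ) + m)
                + ξ ((p.2 : ℕ) + (R + 1) * p.1)))
          * ψ (∑ s : Fin (M * (R + 1)), v (idx s (Fin.last R)) *
              (∑ m : Fin M, v (idx (idx m 0) (Fin.last R)) * γ ((s : ℕ) + m)
                + ξ (R + (R + 1) * s))) := by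
    intro v
    rw [sum_last, AddChar.map_add_eq_mul]
    congr 1
    · refine congrArg ψ (Finset.sum_congr rfl (fun p _ => ?_))
      rw [idx_val, inner]
      simp
    · refine congrArg ψ (Finset.sum_congr rfl (fun s _ => ?_))
      rw [idx_val, inner]
      simp
  simp_rw [h1]
  -- step 2: reindex
  rw [← (eLast (F := F) (M * (R + 1)) R).sum_comp, Fintype.sum_prod_type]
  rw [← (eZero (F := F) M R).sum_comp, Fintype.sum_prod_type]
  have h2 : ∀ (u : Fin M → F) (y : Fin M × Fin R → F),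
      (∑ Y : Fin (M * (R + 1)) × Fin R → F,
        ψ (∑ p : Fin (M * (R + 1)) × Fin R,
            (eLast (M * (R + 1)) R) (eZero M R (u, y), Y) (idx p.1 p.2.castSucc) *
              (∑ m : Fin M, (eLast (M * (R + 1)) R) (eZero M R (u, y), Y)
                  (idx (idx m p.2.castSucc.rev) (Fin.last R)) * γ ((p.1 : ℕ) + m)
                + ξ ((p.2 : ℕ) + (R + 1) * p.1)))
          * ψ (∑ s : Fin (M * (R + 1)),
              (eLast (M * (R + 1)) R) (eZero M R (u, y), Y) (idx s (Fin.last R)) *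
              (∑ m : Fin M, (eLast (M * (R + 1)) R) (eZero M R (u, y), Y)
                  (idx (idx m 0) (Fin.last R)) * γ ((s : ℕ) + m)
                + ξ (R + (R + 1) * s))))
        = (Fintype.card F : ℂ) ^ (M * (R + 1) * R) *
          if Lam γ ξ y = 0 then ψ (Phi γ ξ (joinZero u y)) else 0 := by
    intro u y
    have e1 : ∀ (Y : Fin (M * (R + 1)) × Fin R → F) (p : Fin (M * (R + 1)) × Fin R),
        (eLast (M * (R + 1)) R) (eZero M R (u, y), Y) (idx p.1 p.2.castSucc) = Y p := by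
      intro Y p
      exact joinLast_castSucc _ _ _ _
    have e2 : ∀ (Y : Fin (M * (R + 1)) × Fin R → F) (s : Fin (M * (R + 1))),
        (eLast (M * (R + 1)) R) (eZero M R (u, y), Y) (idx s (Fin.last R))
          = joinZero u y s := by
      intro Y s
      exact joinLast_last _ _ _
    simp_rw [e1, e2]
    have e3 : ∀ p : Fin (M * (R + 1)) × Fin R,
        (∑ m : Fin M, joinZero u y (idx m p.2.castSucc.rev) * γ ((p.1 : ℕ) + m)
                + ξ ((p.2 : ℕ) + (R + 1) * p.1)) = Lam γ ξ y p := by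
      intro p
      unfold Lam
      rw [Fin.rev_castSucc]
      simp_rw [joinZero_succ]
    simp_rw [e3]
    rw [← Finset.sum_mul, sum_char ψ hψ]
    have e4 : Fintype.card (Fin (M * (R + 1)) × Fin R) = M * (R + 1) * R := by simp
    rw [e4]
    have e5 : (∑ s : Fin (M * (R + 1)), joinZero u y s *
              (∑ m : Fin M, joinZero u y (idx m 0) * γ ((s : ℕ) + m)
                + ξ (R + (R + 1) * s))) = Phi γ ξ (joinZero u y) := rfl
    rw [e5]
    split_ifs
    · rfl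
    · simp
  simp_rw [h2]
  rw [Finset.sum_comm, Finset.mul_sum]
  refine Finset.sum_congr rfl (fun y _ => ?_)
  rw [← Finset.mul_sum]
  congr 1
  split_ifs
  · rfl
  · simp

/-- the new linear term -/
def xi' {R M : ℕ} (γ ξ : ℕ → F) (y : Fin M × Fin R → F) : ℕ → F :=
  fun m => ξ (R + (R + 1) * ((R + 1) * m)) + ∑ p : Fin M × Fin R,
    y p * γ ((p.2 : ℕ) + 1 + (R + 1) * p.1 + m)

theorem Phi_join {R M : ℕ} (γ ξ : ℕ → F) (u : Fin M → F) (y : Fin M × Fin R → F) :
    Phi γ ξ (joinZero u y)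
      = ∑ i : Fin M, u i * (∑ j : Fin M, u j * γ ((R + 1) * i + j) + xi' γ ξ y i)
        + ∑ p : Fin M × Fin R, y p * ξ (R + (R + 1) * ((p.2 : ℕ) + 1 + (R + 1) * p.1)) := by
  unfold Phi
  rw [sum_zero]
  simp_rw [joinZero_zero, joinZero_succ, idx_val]
  have h : ∑ i : Fin M, u i * (∑ j : Fin M, u j * γ ((R + 1) * i + j) + xi' γ ξ y i)
      = ∑ i : Fin M, u i * (∑ j : Fin M, u j * γ ((R + 1) * i + j)
          + ξ (R + (R + 1) * ((R + 1) * i)))
        + ∑ p : Fin M × Fin R, y p * ∑ i : Fin M, u i * γ ((p.2 : ℕ) + 1 + (R + 1) * p.1 + i) := by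
    unfold xi'
    have : ∀ i : Fin M, u i * (∑ j : Fin M, u j * γ ((R + 1) * i + j)
        + (ξ (R + (R + 1) * ((R + 1) * i)) + ∑ p : Fin M × Fin R,
            y p * γ ((p.2 : ℕ) + 1 + (R + 1) * p.1 + i)))
        = u i * (∑ j : Fin M, u j * γ ((R + 1) * i + j) + ξ (R + (R + 1) * ((R + 1) * i)))
          + ∑ p : Fin M × Fin R, y p * (u i * γ ((p.2 : ℕ) + 1 + (R + 1) * p.1 + i)) := by
      intro i
      rw [← add_assoc, mul_add _ _ (∑ p : Fin M × Fin R, _), Finset.mul_sum]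
      congr 1
      refine Finset.sum_congr rfl (fun p _ => by ring)
    simp_rw [this]
    rw [Finset.sum_add_distrib, Finset.sum_comm (s := (Finset.univ : Finset (Fin M)))
      (t := (Finset.univ : Finset (Fin M × Fin R)))]
    congr 1
    refine Finset.sum_congr rfl (fun p _ => ?_)
    rw [Finset.mul_sum]
  rw [h, add_assoc, ← Finset.sum_add_distrib]
  congr 1
  · refine Finset.sum_congr rfl (fun i _ => ?_)
    simp
  · refine Finset.sum_congr rfl (fun p _ => ?_)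
    rw [← mul_add]
    simp

/-- injectivity at the level `M`: no nonzero `z` of degree `< M` with `γ z` close to `F[t]`. -/
def Inj (γ : ℕ → F) (M L : ℕ) : Prop :=
  ∀ z : Fin M → F, (∀ s : ℕ, s < L → ∑ m : Fin M, z m * γ (s + m) = 0) → z = 0

theorem Lam_inj {R M : ℕ} (γ ξ : ℕ → F) (h : Inj γ M (M * (R + 1))) (y y' : Fin M × Fin R → F)
    (hy : Lam γ ξ y = 0) (hy' : Lam γ ξ y' = 0) : y = y' := by
  funext p
  obtain ⟨m, a⟩ := p
  have key : (fun m : Fin M => y (m, a) - y' (m, a)) = 0 := by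
    apply h
    intro s hs
    have e1 := congrFun hy (⟨s, hs⟩, a.rev)
    have e2 := congrFun hy' (⟨s, hs⟩, a.rev)
    simp only [Lam, Fin.rev_rev, Pi.zero_apply] at e1 e2
    have : ∑ m : Fin M, (y (m, a) - y' (m, a)) * γ (s + m)
        = ∑ m : Fin M, y (m, a) * γ (s + m) - ∑ m : Fin M, y' (m, a) * γ (s + m) := by
      rw [← Finset.sum_sub_distrib]
      exact Finset.sum_congr rfl (fun m _ => by ring)
    rw [this]
    linear_combination e1 - e2
  have := congrFun key m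
  simpa [sub_eq_zero] using this

theorem T_of_sol (ψ : AddChar F ℂ) (hψ : ψ ≠ 1) (R M : ℕ) (γ ξ : ℕ → F)
    (h : Inj γ M (M * (R + 1))) (y : Fin M × Fin R → F) (hy : Lam γ ξ y = 0) :
    ‖T ψ (R + 1) (M * (R + 1) * (R + 1)) (pw ((R + 1) ^ 2) γ) ξ‖
      = (Fintype.card F : ℝ) ^ (M * (R + 1) * R) * ‖T ψ (R + 1) M γ (xi' γ ξ y)‖ := by
  rw [T_split ψ hψ]
  rw [Finset.sum_eq_single y]
  · rw [if_pos hy, norm_mul, norm_pow, Complex.norm_natCast]
    congr 1
    have : ∀ u : Fin M → F, ψ (Phi γ ξ (joinZero u y))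
        = ψ (∑ i : Fin M, u i * (∑ j : Fin M, u j * γ ((R + 1) * i + j) + xi' γ ξ y i))
          * ψ (∑ p : Fin M × Fin R, y p * ξ (R + (R + 1) * ((p.2 : ℕ) + 1 + (R + 1) * p.1))) := by
      intro u
      rw [Phi_join, AddChar.map_add_eq_mul]
    simp_rw [this]
    rw [← Finset.sum_mul, norm_mul, AddChar.norm_apply, mul_one]
    rfl
  · intro y' _ hne
    rw [if_neg]
    intro h'
    exact hne (Lam_inj γ ξ h y' y h' hy)
  · intro h'
    exact absurd (Finset.mem_univ y) h'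

/-- Going down. -/
theorem descend (ψ : AddChar F ℂ) (hψ : ψ ≠ 1) (R M : ℕ) (γ ξ : ℕ → F)
    (h : Inj γ M (M * (R + 1))) :
    ∃ ξ' : ℕ → F, ‖T ψ (R + 1) (M * (R + 1) * (R + 1)) (pw ((R + 1) ^ 2) γ) ξ‖
      ≤ (Fintype.card F : ℝ) ^ (M * (R + 1) * R) * ‖T ψ (R + 1) M γ ξ'‖ := by
  by_cases hex : ∃ y : Fin M × Fin R → F, Lam γ ξ y = 0
  · obtain ⟨y, hy⟩ := hex
    exact ⟨xi' γ ξ y, (T_of_sol ψ hψ R M γ ξ h y hy).le⟩
  · refine ⟨0, ?_⟩
    push Not at hex
    rw [T_split ψ hψ]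
    have : (∑ y : Fin M × Fin R → F, if Lam γ ξ y = 0 then
          (∑ u : Fin M → F, ψ (Phi γ ξ (joinZero u y))) else 0) = 0 :=
      Finset.sum_eq_zero (fun y _ => if_neg (hex y))
    rw [this, mul_zero, norm_zero]
    positivity

/-- Going up. -/
theorem ascend (ψ : AddChar F ℂ) (hψ : ψ ≠ 1) (R M : ℕ) (γ ξ' : ℕ → F)
    (h : Inj γ M (M * (R + 1))) :
    ∃ ξ : ℕ → F, ‖T ψ (R + 1) (M * (R + 1) * (R + 1)) (pw ((R + 1) ^ 2) γ) ξ‖
      = (Fintype.card F : ℝ) ^ (M * (R + 1) * R) * ‖T ψ (R + 1) M γ ξ'‖ := by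
  let ξ : ℕ → F := fun i => if i % (R + 1) ^ 2 = R then ξ' (i / (R + 1) ^ 2) else 0
  have hy : Lam γ ξ (0 : Fin M × Fin R → F) = 0 := by
    funext p
    have hp : ((p.2 : ℕ) + (R + 1) * p.1) % (R + 1) ^ 2 ≠ R := by
      intro hc
      have h2 : ((p.2 : ℕ) + (R + 1) * p.1) % (R + 1) ^ 2 % (R + 1)
          = ((p.2 : ℕ) + (R + 1) * p.1) % (R + 1) :=
        Nat.mod_mod_of_dvd _ (Dvd.intro_left _ (by rw [← pow_two]))
      rw [hc, Nat.add_mul_mod_self_left, Nat.mod_eq_of_lt (Nat.lt_succ_self R),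
        Nat.mod_eq_of_lt (lt_trans p.2.isLt (Nat.lt_succ_self R))] at h2
      have := p.2.isLt
      omega
    simp only [Lam, Pi.zero_apply, zero_mul, Finset.sum_const_zero, zero_add]
    exact if_neg hp
  refine ⟨ξ, ?_⟩
  rw [T_of_sol ψ hψ R M γ ξ h 0 hy]
  have : xi' (M := M) (R := R) γ ξ 0 = ξ' := by
    funext m
    have h3 : (R + (R + 1) * ((R + 1) * m)) = R + (R + 1) ^ 2 * m := by ring
    have h4 : R < (R + 1) ^ 2 := by nlinarith
    simp only [xi', Pi.zero_apply, zero_mul, Finset.sum_const_zero, add_zero]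
    rw [h3]
    simp only [ξ]
    rw [Nat.add_mul_mod_self_left, Nat.mod_eq_of_lt h4, if_pos rfl,
      Nat.add_mul_div_left _ _ (by positivity), Nat.div_eq_of_lt h4, zero_add]
  rw [this]

end Pool.Agent.H614.WS
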