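import Pool.Agent.H614.WS.Bad

set_option autoImplicit false
set_option linter.unusedSectionVars false

open Polynomial Finset

namespace Pool.Agent.H614.WS

variable {F : Type} [Field F]

/-- `Inj γ M L` depends on the digits below `L + M - 1` only. -/
theorem Inj_congr (γ γ' : ℕ → F) (M L B : ℕ) (hB : L + M ≤ B + 1) (h : ∀ i, i < B → γ i = γ' i)
    (hi : Inj γ M L) : Inj γ' M L := by
  intro z hz
  apply hi
  intro s hs
  rw [← hz s hs]
  refine Finset.sum_congr rfl (fun m _ => ?_)
  rw [h (s + m) (by have := m.isLt; omega)]

theorem step_exists (γ : ℕ → F) (n : ℕ) (h : Inj γ n n) :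
    ∃ v : F, Inj (Function.update γ (2 * n) v) (n + 1) (n + 1) := by
  have key : ∀ (v : F), ¬ Inj (Function.update γ (2 * n) v) (n + 1) (n + 1) →
      ∃ z : Fin (n + 1) → F, z (Fin.last n) ≠ 0 ∧
        (∀ s, s < n → ∑ m : Fin n, z m.castSucc * γ (s + m) + z (Fin.last n) * γ (s + n) = 0) ∧
        ∑ m : Fin n, z m.castSucc * γ (n + m) + z (Fin.last n) * v = 0 := by
    intro v hv
    unfold Inj at hv
    push Not at hv
    obtain ⟨z, hz, hz0⟩ := hv
    have hrows : ∀ s, s < n →
        ∑ m : Fin n, z m.castSucc * γ (s + m) + z (Fin.last n) * γ (s + n) = 0 := by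
      intro s hs
      have := hz s (by omega)
      rw [Fin.sum_univ_castSucc] at this
      rw [← this]
      congr 1
      · refine Finset.sum_congr rfl (fun m _ => ?_)
        rw [Function.update_of_ne]
        · simp
        · have := m.isLt
          simp only [Fin.val_castSucc]
          omega
      · rw [Function.update_of_ne]
        · simp
        · simp only [Fin.val_last]
          omega
    refine ⟨z, ?_, hrows, ?_⟩
    · intro hl
      apply hz0
      have hz1 : (fun m : Fin n => z m.castSucc) = 0 := by
        apply h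
        intro s hs
        have := hrows s hs
        rw [hl, zero_mul, add_zero] at this
        exact this
      funext i
      refine Fin.lastCases ?_ (fun m => ?_) i
      · simpa using hl
      · simpa using congrFun hz1 m
    · have := hz n (by omega)
      rw [Fin.sum_univ_castSucc] at this
      rw [← this]
      congr 1
      · refine Finset.sum_congr rfl (fun m _ => ?_)
        rw [Function.update_of_ne]
        · simp
        · have := m.isLt
          simp only [Fin.val_castSucc]
          omega
      · have e : n + ((Fin.last n : Fin (n + 1)) : ℕ) = 2 * n := by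
          simp only [Fin.val_last]
          omega
        rw [e, Function.update_self]
  by_contra hcon
  push Not at hcon
  obtain ⟨z0, h00, h0r, h0n⟩ := key 0 (hcon 0)
  obtain ⟨z1, h10, h1r, h1n⟩ := key 1 (hcon 1)
  have hw : (fun m : Fin n => z1 (Fin.last n) * z0 m.castSucc - z0 (Fin.last n) * z1 m.castSucc) = 0 := by
    apply h
    intro s hs
    have e : ∑ m : Fin n, (z1 (Fin.last n) * z0 m.castSucc - z0 (Fin.last n) * z1 m.castSucc) * γ (s + m)
        = z1 (Fin.last n) * ∑ m : Fin n, z0 m.castSucc * γ (s + m)
          - z0 (Fin.last n) * ∑ m : Fin n, z1 m.castSucc * γ (s + m) := by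
      rw [Finset.mul_sum, Finset.mul_sum, ← Finset.sum_sub_distrib]
      exact Finset.sum_congr rfl (fun m _ => by ring)
    rw [e]
    linear_combination z1 (Fin.last n) * h0r s hs - z0 (Fin.last n) * h1r s hs
  have e2 : z1 (Fin.last n) * ∑ m : Fin n, z0 m.castSucc * γ (n + m)
      = z0 (Fin.last n) * ∑ m : Fin n, z1 m.castSucc * γ (n + m) := by
    rw [Finset.mul_sum, Finset.mul_sum]
    refine Finset.sum_congr rfl (fun m _ => ?_)
    have := congrFun hw m
    simp only [Pi.zero_apply] at this
    linear_combination γ (n + m) * this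
  have e3 : z0 (Fin.last n) * z1 (Fin.last n) = 0 := by
    linear_combination z0 (Fin.last n) * h1n - z1 (Fin.last n) * h0n + e2
  rcases mul_eq_zero.mp e3 with h | h
  · exact h00 h
  · exact h10 h

theorem step_all (γ : ℕ → F) (n : ℕ) :
    ∃ v : F, Inj γ n n → Inj (Function.update γ (2 * n) v) (n + 1) (n + 1) := by
  by_cases h : Inj γ n n
  · obtain ⟨v, hv⟩ := step_exists γ n h
    exact ⟨v, fun _ => hv⟩
  · exact ⟨0, fun h' => absurd h' h⟩

/-- The greedy construction, starting with an arbitrary sequence; the digits of odd index are kept. -/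
noncomputable def greedy (γ₀ : ℕ → F) : ℕ → ℕ → F
  | 0 => γ₀
  | n + 1 => Function.update (greedy γ₀ n) (2 * n) (step_all (greedy γ₀ n) n).choose

theorem greedy_inj (γ₀ : ℕ → F) (n : ℕ) : Inj (greedy γ₀ n) n n := by
  induction n with
  | zero =>
    intro z _
    funext i
    exact i.elim0
  | succ n ih => exact (step_all (greedy γ₀ n) n).choose_spec ih

theorem greedy_stable (γ₀ : ℕ → F) (n m : ℕ) (h : n ≤ m) (i : ℕ) (hi : i < 2 * n) :
    greedy γ₀ m i = greedy γ₀ n i := by
  induction m, h using Nat.le_induction with
  | base => rfl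
  | succ m hm ih =>
    rw [greedy, Function.update_of_ne (by omega), ih]

theorem greedy_odd (γ₀ : ℕ → F) (n i : ℕ) : greedy γ₀ n (2 * i + 1) = γ₀ (2 * i + 1) := by
  induction n with
  | zero => rfl
  | succ n ih => rw [greedy, Function.update_of_ne (by omega), ih]

/-- There are badly approximable elements with the best possible constant `c = 0`, with arbitrarily
prescribed digits of odd index. -/
theorem exists_bad (γ₀ : ℕ → F) : ∃ γ : ℕ → F, (∀ i, γ (2 * i + 1) = γ₀ (2 * i + 1)) ∧ BadC γ 0 := by
  refine ⟨fun i => greedy γ₀ (i + 1) i, fun i => greedy_odd γ₀ _ i, ?_⟩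
  have hinj : ∀ n, Inj (fun i => greedy γ₀ (i + 1) i) n n := by
    intro n
    refine Inj_congr (greedy γ₀ n) _ n n (2 * n) (by omega) (fun i hi => ?_) (greedy_inj γ₀ n)
    rcases le_total n (i + 1) with h | h
    · exact (greedy_stable γ₀ n (i + 1) h i hi).symm
    · exact greedy_stable γ₀ (i + 1) n h i (by omega)
  intro g hg
  by_contra hcon
  push Not at hcon
  apply hg
  have h0 : (fun m : Fin (g.natDegree + 1) => g.coeff m) = 0 := by
    apply hinj
    intro s hs
    have := hcon s (by omega)
    rw [res_X_pow_mul _ g s (g.natDegree + 1) (by omega), Finset.sum_range] at this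
    rw [← this]
    refine Finset.sum_congr rfl (fun m _ => ?_)
    rw [add_comm s]
  have := congrFun h0 (Fin.last g.natDegree)
  simp only [Fin.val_last, Pi.zero_apply] at this
  exact Polynomial.leadingCoeff_eq_zero.mp this

end Pool.Agent.H614.WS
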