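import Pool.Agent.H614.WS.Iter

set_option autoImplicit false
set_option linter.unusedSectionVars false

open Polynomial Finset

namespace Pool.Agent.H614.WS

variable {F : Type} [Field F] [Fintype F] [DecidableEq F]

theorem one_lt_q : (1 : ℝ) < Fintype.card F := by
  exact_mod_cast Fintype.one_lt_card

theorem bounds (ψ : AddChar F ℂ) (hψ : ψ ≠ 1) (R : ℕ) (hR : 1 ≤ R) (γ : ℕ → F) (c₀ : ℕ)
    (hγ : BadC γ c₀) (r n : ℕ) (hn : n = (R + 1) ^ (2 * r)) :
    ∃ c C : ℝ, 0 < c ∧ 0 < C ∧ ∀ N : ℕ,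
      (∀ ξ, ‖T ψ (R + 1) N (pw n γ) ξ‖
        ≤ C * (Fintype.card F : ℝ) ^ ((1 - 1 / ((R : ℝ) + 2) + 1 / (((R : ℝ) + 2) * n)) * N)) ∧
      (∃ ξ, c * (Fintype.card F : ℝ) ^ ((1 - 1 / ((R : ℝ) + 2) - (1 / 2 - 1 / ((R : ℝ) + 2)) / n) * N)
        ≤ ‖T ψ (R + 1) N (pw n γ) ξ‖) := by
  have hq := one_lt_q (F := F)
  have hq0 : (0 : ℝ) < Fintype.card F := by linarith
  set q : ℝ := (Fintype.card F : ℝ) with hqdef
  have hn1 : 1 ≤ n := by rw [hn]; exact Nat.one_le_pow _ _ (Nat.succ_pos R)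
  have hn1' : (1 : ℝ) ≤ n := by exact_mod_cast hn1
  have hR' : (1 : ℝ) ≤ R := by exact_mod_cast hR
  set σ : ℝ := 1 - 1 / ((R : ℝ) + 2) + 1 / (((R : ℝ) + 2) * n) with hσ
  set τ : ℝ := 1 - 1 / ((R : ℝ) + 2) - (1 / 2 - 1 / ((R : ℝ) + 2)) / n with hτ
  have hk : (1 : ℝ) / ((R : ℝ) + 2) ≤ 1 / 3 :=
    one_div_le_one_div_of_le (by norm_num) (by linarith)
  have hk0 : (0 : ℝ) < 1 / ((R : ℝ) + 2) := by positivity
  have hσ0 : 0 ≤ σ := by
    have : (0 : ℝ) ≤ 1 / (((R : ℝ) + 2) * n) := by positivity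
    linarith
  have hτ0 : 0 ≤ τ := by
    have h1 : (1 / 2 - 1 / ((R : ℝ) + 2)) / n ≤ 1 / 2 - 1 / ((R : ℝ) + 2) :=
      div_le_self (by linarith) hn1'
    linarith
  have hid1 : ∀ E M : ℕ, E * (R + 2) + (R + 1) * M = (R + 1) * (n * M) →
      ((E : ℝ) + M) = σ * (n * M : ℕ) := by
    intro E M h
    have h' : (E : ℝ) * (R + 2) + (R + 1) * M = (R + 1) * (n * M) := by exact_mod_cast h
    rw [hσ]
    push_cast
    field_simp
    linear_combination h'
  have hid2 : ∀ E M : ℕ, E * (R + 2) + (R + 1) * M = (R + 1) * (n * M) →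
      ((E : ℝ) + M / 2) = τ * (n * M : ℕ) := by
    intro E M h
    have h' : (E : ℝ) * (R + 2) + (R + 1) * M = (R + 1) * (n * M) := by exact_mod_cast h
    rw [hτ]
    push_cast
    field_simp
    linear_combination 2 * h'
  refine ⟨q ^ (-(τ * (n * (c₀ + 1)))), q ^ (σ * (n * (c₀ + 1))), Real.rpow_pos_of_pos hq0 _,
    Real.rpow_pos_of_pos hq0 _, fun N => ⟨fun ξ => ?_, ?_⟩⟩
  · -- upper bound
    set M := N / n + 1 + c₀ with hM
    have hM1 : N / n + 1 ≤ M ∧ c₀ + 1 ≤ M := by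
      rw [hM]
      generalize N / n = x
      omega
    obtain ⟨E, hE, hdown, -⟩ := iter ψ hψ R hR γ c₀ hγ M hM1.2 r
    rw [← hn] at hE hdown
    have hNM : N ≤ n * M := by
      have h1 : N < n * (N / n + 1) := Nat.lt_mul_div_succ N hn1
      have h2 : n * (N / n + 1) ≤ n * M := Nat.mul_le_mul_left _ hM1.1
      omega
    have hMN : ((n * M : ℕ) : ℝ) ≤ N + n * (c₀ + 1) := by
      have h1 : n * (N / n) ≤ N := Nat.mul_div_le N n
      have h2 : n * M = n * (N / n) + n * (c₀ + 1) := by rw [hM]; ring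
      have h3 : n * M ≤ N + n * (c₀ + 1) := by omega
      exact_mod_cast h3
    obtain ⟨ξ1, h1⟩ := T_mono' ψ hψ (R + 1) N (n * M) hNM (pw n γ) ξ
    obtain ⟨ξ2, h2⟩ := hdown ξ1
    have h3 := T_le ψ (R + 1) M γ ξ2
    calc ‖T ψ (R + 1) N (pw n γ) ξ‖ ≤ q ^ E * ‖T ψ (R + 1) M γ ξ2‖ := h1.trans h2
      _ ≤ q ^ E * q ^ M := mul_le_mul_of_nonneg_left h3 (pow_nonneg hq0.le _)
      _ = q ^ (σ * (n * M : ℕ)) := by
          rw [← pow_add, ← Real.rpow_natCast, ← hid1 E M hE]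
          push_cast
          rfl
      _ ≤ q ^ (σ * (N + n * (c₀ + 1))) := by
          apply Real.rpow_le_rpow_of_exponent_le hq.le
          exact mul_le_mul_of_nonneg_left hMN hσ0
      _ = q ^ (σ * (n * (c₀ + 1))) * q ^ (σ * N) := by
          rw [← Real.rpow_add hq0]
          ring_nf
  · -- lower bound
    by_cases hN : n * (c₀ + 1) ≤ N
    · set M := N / n with hM
      have hcM : c₀ + 1 ≤ M := by
        rw [hM, Nat.le_div_iff_mul_le hn1, mul_comm]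
        exact hN
      obtain ⟨E, hE, -, hup⟩ := iter ψ hψ R hR γ c₀ hγ M hcM r
      rw [← hn] at hE hup
      have hNM : n * M ≤ N := Nat.mul_div_le N n
      have hMN : (N : ℝ) - n ≤ ((n * M : ℕ) : ℝ) := by
        have h1 : N < n * (N / n + 1) := Nat.lt_mul_div_succ N hn1
        have h2 : n * (N / n + 1) = n * M + n := by rw [hM]; ring
        have h3 : N < n * M + n := by omega
        have h4 : (N : ℝ) < (n * M : ℕ) + n := by exact_mod_cast h3
        linarith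
      obtain ⟨ξ1, h1⟩ := T_parseval ψ hψ (R + 1) M γ
      obtain ⟨ξ2, h2⟩ := hup ξ1
      obtain ⟨ξ3, h3⟩ := T_mono' ψ hψ (R + 1) (n * M) N hNM (pw n γ) ξ2
      refine ⟨ξ3, ?_⟩
      have h4 : q ^ ((M : ℝ) / 2) ≤ ‖T ψ (R + 1) M γ ξ1‖ := by
        have e : (q ^ ((M : ℝ) / 2)) ^ 2 = q ^ M := by
          rw [← Real.rpow_natCast, ← Real.rpow_mul hq0.le, ← Real.rpow_natCast]
          push_cast
          congr 1
          ring
        rw [← e] at h1
        exact (sq_le_sq₀ (Real.rpow_nonneg hq0.le _) (norm_nonneg _)).mp h1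
      calc q ^ (-(τ * (n * (c₀ + 1)))) * q ^ (τ * N)
          = q ^ (τ * (N - n * (c₀ + 1))) := by
            rw [← Real.rpow_add hq0]
            ring_nf
        _ ≤ q ^ (τ * (n * M : ℕ)) := by
            apply Real.rpow_le_rpow_of_exponent_le hq.le
            apply mul_le_mul_of_nonneg_left _ hτ0
            have : (0 : ℝ) ≤ n * c₀ := by positivity
            linarith
        _ = q ^ E * q ^ ((M : ℝ) / 2) := by
            rw [← hid2 E M hE, Real.rpow_add hq0, Real.rpow_natCast]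
        _ ≤ q ^ E * ‖T ψ (R + 1) M γ ξ1‖ := mul_le_mul_of_nonneg_left h4 (pow_nonneg hq0.le _)
        _ = ‖T ψ (R + 1) (n * M) (pw n γ) ξ2‖ := h2.symm
        _ ≤ _ := h3
    · push Not at hN
      obtain ⟨ξ1, h1⟩ := T_parseval ψ hψ (R + 1) N (pw n γ)
      refine ⟨ξ1, ?_⟩
      have h2 : (1 : ℝ) ≤ ‖T ψ (R + 1) N (pw n γ) ξ1‖ := by
        have h3 : (1 : ℝ) ≤ q ^ N := one_le_pow₀ hq.le
        have h4 : (1 : ℝ) ^ 2 ≤ ‖T ψ (R + 1) N (pw n γ) ξ1‖ ^ 2 := by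
          rw [one_pow]; exact h3.trans h1
        exact (sq_le_sq₀ zero_le_one (norm_nonneg _)).mp h4
      refine le_trans ?_ h2
      rw [← Real.rpow_add hq0]
      apply Real.rpow_le_one_of_one_le_of_nonpos hq.le
      have h5 : (N : ℝ) ≤ n * (c₀ + 1) := by exact_mod_cast hN.le
      have := mul_le_mul_of_nonneg_left h5 hτ0
      linarith

end Pool.Agent.H614.WS
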