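import Pool.Agent.H614.WS.Bounds
import Pool.Agent.H614.WS.Exists

set_option autoImplicit false
set_option linter.unusedSectionVars false

open Polynomial Finset

namespace Pool.Agent.H614.WS

variable {F : Type} [Field F] [Fintype F] [DecidableEq F]

theorem badC_pw_iter (γ : ℕ → F) (c R : ℕ) (h : BadC γ c) (r : ℕ) :
    BadC (pw ((R + 1) ^ (2 * r)) γ) ((R + 1) ^ (2 * r) * c + (R + 1) ^ (2 * r) - 1) :=
  bad_pw γ c _ (Nat.one_le_pow _ _ (Nat.succ_pos R)) h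

theorem iter (ψ : AddChar F ℂ) (hψ : ψ ≠ 1) (R : ℕ) (hR : 1 ≤ R) (γ : ℕ → F) (c : ℕ)
    (hγ : BadC γ c) (M : ℕ) (hM : c + 1 ≤ M) (r : ℕ) :
    ∃ E : ℕ, E * (R + 2) + (R + 1) * M = (R + 1) * ((R + 1) ^ (2 * r) * M) ∧
      (∀ ξ, ∃ ξ', ‖T ψ (R + 1) ((R + 1) ^ (2 * r) * M) (pw ((R + 1) ^ (2 * r)) γ) ξ‖
        ≤ (Fintype.card F : ℝ) ^ E * ‖T ψ (R + 1) M γ ξ'‖) ∧
      (∀ ξ', ∃ ξ, ‖T ψ (R + 1) ((R + 1) ^ (2 * r) * M) (pw ((R + 1) ^ (2 * r)) γ) ξ‖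
        = (Fintype.card F : ℝ) ^ E * ‖T ψ (R + 1) M γ ξ'‖) := by
  induction r with
  | zero =>
    refine ⟨0, by simp, fun ξ => ⟨ξ, ?_⟩, fun ξ' => ⟨ξ', ?_⟩⟩
    · simp [pw_one]
    · simp [pw_one]
  | succ r ih =>
    obtain ⟨E, hE, hdown, hup⟩ := ih
    set n := (R + 1) ^ (2 * r) with hn
    have hn1 : 1 ≤ n := Nat.one_le_pow _ _ (Nat.succ_pos R)
    have hlev : (R + 1) ^ (2 * (r + 1)) * M = n * M * (R + 1) * (R + 1) := by
      rw [hn]; ring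
    have hpw : pw ((R + 1) ^ (2 * (r + 1))) γ = pw ((R + 1) ^ 2) (pw n γ) := by
      have e : (R + 1) ^ (2 * (r + 1)) = (R + 1) ^ 2 * n := by rw [hn]; ring
      rw [pw_pw γ _ _ (Nat.one_le_pow _ _ (Nat.succ_pos R)), e]
    have hinj : Inj (pw n γ) (n * M) (n * M * (R + 1)) := by
      refine Inj_of_bad (pw n γ) (n * c + n - 1) (n * M) _ (badC_pw_iter γ c R hγ r) ?_
      have h1 : n * (c + 1) ≤ n * M := Nat.mul_le_mul_left _ hM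
      have h2 : n * M * 2 ≤ n * M * (R + 1) := Nat.mul_le_mul_left _ (by omega)
      have h3 : n * (c + 1) = n * c + n := by ring
      omega
    rw [hlev, hpw]
    refine ⟨n * M * (R + 1) * R + E, ?_, ?_, ?_⟩
    · have : (n * M * (R + 1) * R + E) * (R + 2) + (R + 1) * M
          = n * M * (R + 1) * R * (R + 2) + (E * (R + 2) + (R + 1) * M) := by ring
      rw [this, hE]
      ring
    · intro ξ
      obtain ⟨ξ1, h1⟩ := descend ψ hψ R (n * M) (pw n γ) ξ hinj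
      obtain ⟨ξ2, h2⟩ := hdown ξ1
      refine ⟨ξ2, h1.trans ?_⟩
      rw [pow_add, mul_assoc (_ ^ _) (_ ^ _) ‖_‖]
      exact mul_le_mul_of_nonneg_left h2 (pow_nonneg (Nat.cast_nonneg _) _)
    · intro ξ'
      obtain ⟨ξ1, h1⟩ := hup ξ'
      obtain ⟨ξ2, h2⟩ := ascend ψ hψ R (n * M) (pw n γ) ξ1 hinj
      refine ⟨ξ2, ?_⟩
      rw [h2, h1, pow_add, mul_assoc (_ ^ _) (_ ^ _) ‖_‖]

end Pool.Agent.H614.WS
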