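import Pool.Agent.H614.WS.Upper

set_option autoImplicit false
set_option linter.unusedSectionVars false

open Polynomial Finset Filter

namespace Pool.Agent.H614.WS

variable {F : Type} [Field F]

/-- `a/g`, with `a` the polynomial part of `α g`, is a reduced fraction with
`|α - a/g| ≤ |g|^(-2)`, `deg g ≤ N`. -/
def Reduced (α : ℕ → F) (g : F[X]) (N : ℕ) : Prop :=
  g ≠ 0 ∧ g.natDegree ≤ N ∧ IsCoprime (ip α g) g ∧
    ∀ j, j + 1 < g.natDegree → res α (X ^ j * g) = 0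

/-- `N^(1+ε) (1/q + 1/N + q N^(-k))^η` with `q` replaced by `|g| = q^d` and `N` by `q^N`. -/
noncomputable def rhs (q : ℝ) (k N d : ℕ) (ε η : ℝ) : ℝ :=
  q ^ ((1 + ε) * N) * (q ^ (-(d : ℝ)) + q ^ (-(N : ℝ)) + q ^ ((d : ℝ) - k * N)) ^ η

variable [Fintype F] [DecidableEq F]

theorem main_upper (ψ : AddChar F ℂ) (hψ : ψ ≠ 1) (R : ℕ) (r n : ℕ) (hn : n = (R + 1) ^ (2 * r))
    (γ ξ : ℕ → F) (N : ℕ) (g : F[X]) (hg : Reduced (pw n γ) g N) :
    ‖T ψ (R + 1) N (pw n γ) ξ‖ ≤ (Fintype.card F : ℝ) ^ n *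
      ((Fintype.card F : ℝ) ^ ((1 + 1 / (((R : ℝ) + 2) * n)) * N)
        * (Fintype.card F : ℝ) ^ (-((g.natDegree : ℝ) / ((R : ℝ) + 2)))) := by
  have hq := one_lt_q (F := F)
  have hq0 : (0 : ℝ) < Fintype.card F := by linarith
  have hn1 : 1 ≤ n := by rw [hn]; exact Nat.one_le_pow _ _ (Nat.succ_pos R)
  obtain ⟨-, hdN, hcop, happ⟩ := hg
  set D := g.natDegree with hD
  have hNS := NS_of_approx (pw n γ) g N hdN hcop happ
  rw [← hD] at hNS
  obtain ⟨x, hx⟩ : ∃ x, x = N / n := ⟨_, rfl⟩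
  obtain ⟨d, hd⟩ : ∃ d, d = (D + n - 1) / n := ⟨_, rfl⟩
  have hx1 : N < n * (x + 1) := by rw [hx]; exact Nat.lt_mul_div_succ N hn1
  have hx2 : n * x ≤ N := by rw [hx]; exact Nat.mul_div_le N n
  have hd1 : n * d ≤ D + n - 1 := by rw [hd]; exact Nat.mul_div_le _ _
  have hd2 : D + n - 1 < n * (d + 1) := by rw [hd]; exact Nat.lt_mul_div_succ _ hn1
  have hx3 : n * (x + 1) = n * x + n := by ring
  have hd3 : n * (d + 1) = n * d + n := by ring
  have hdM : d ≤ x + 1 := by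
    by_contra hcon
    push Not at hcon
    have : n * (x + 2) ≤ n * d := Nat.mul_le_mul_left _ hcon
    have h2 : n * (x + 2) = n * x + 2 * n := by ring
    omega
  have hNSγ : NS γ (x + 1) d := by
    refine NS_of_pw γ n N (x + 1) D d hn1 hx1.le (fun y hy => ?_) hNS
    have h1 : n * (y + 1) ≤ n * d := Nat.mul_le_mul_left _ hy
    have h2 : n * (y + 1) = n * y + n := by ring
    omega
  obtain ⟨E, hE, hb⟩ := iter2 ψ hψ R γ (x + 1) d hdM hNSγ r
  rw [← hn] at hE hb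
  obtain ⟨ξ1, h1⟩ := T_mono' ψ hψ (R + 1) N (n * (x + 1)) hx1.le (pw n γ) ξ
  refine h1.trans ((hb ξ1).trans ?_)
  have hexp : (E : ℝ) ≤ n + ((1 + 1 / (((R : ℝ) + 2) * n)) * N + -((D : ℝ) / ((R : ℝ) + 2))) := by
    obtain ⟨n', hn'⟩ := Nat.exists_eq_add_of_le hn1
    have h2 : n - 1 = n' := by omega
    rw [h2] at hE
    have hE' : (E : ℝ) * (R + 2) + n' * d = (R + 2) * (n * (x + 1)) := by exact_mod_cast hE
    have hn'' : (n : ℝ) = 1 + n' := by exact_mod_cast hn'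
    have hx2' : (n : ℝ) * x ≤ N := by exact_mod_cast hx2
    have hd2' : (D : ℝ) ≤ n * d := by
      have : D ≤ n * d := by omega
      exact_mod_cast this
    have hDN : (D : ℝ) ≤ N := by exact_mod_cast hdN
    have hnpos : (0 : ℝ) < n := by exact_mod_cast hn1
    have hk : (0 : ℝ) < (R : ℝ) + 2 := by positivity
    -- multiply by `(R+2) n`
    have key : (E : ℝ) * ((R + 2) * n) ≤ (n + ((1 + 1 / (((R : ℝ) + 2) * n)) * N
        + -((D : ℝ) / ((R : ℝ) + 2)))) * ((R + 2) * n) := by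
      have e1 : (n + ((1 + 1 / (((R : ℝ) + 2) * n)) * N
        + -((D : ℝ) / ((R : ℝ) + 2)))) * ((R + 2) * n)
          = n * n * (R + 2) + ((R + 2) * n * N + N) - D * n := by
        field_simp
        ring
      rw [e1]
      have e2 : (E : ℝ) * ((R + 2) * n) = (R + 2) * (n * (x + 1)) * n - n' * d * n := by
        linear_combination n * hE'
      rw [e2]
      have e3 : (n' : ℝ) * (n * d) ≥ n' * D :=
        mul_le_mul_of_nonneg_left hd2' (Nat.cast_nonneg _)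
      have e4 : ((R : ℝ) + 2) * n * (n * x) ≤ (R + 2) * n * N :=
        mul_le_mul_of_nonneg_left hx2' (by positivity)
      have e5 : (n' : ℝ) = n - 1 := by linarith
      rw [e5] at e3 ⊢
      nlinarith
    exact le_of_mul_le_mul_right key (by positivity)
  calc (Fintype.card F : ℝ) ^ E = (Fintype.card F : ℝ) ^ (E : ℝ) := (Real.rpow_natCast _ _).symm
    _ ≤ (Fintype.card F : ℝ) ^ ((n : ℝ) + ((1 + 1 / (((R : ℝ) + 2) * n)) * N
        + -((D : ℝ) / ((R : ℝ) + 2)))) := Real.rpow_le_rpow_of_exponent_le hq.le hexp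
    _ = _ := by
      rw [Real.rpow_add hq0, Real.rpow_add hq0, Real.rpow_natCast]

theorem rhs_lower (q : ℝ) (hq : 1 < q) (k N d : ℕ) (ε : ℝ) (hk : 1 ≤ k) :
    q ^ ((1 + ε) * N) * q ^ (-((d : ℝ) / k)) ≤ rhs q k N d ε (1 / k) := by
  have hq0 : 0 < q := by linarith
  unfold rhs
  apply mul_le_mul_of_nonneg_left _ (Real.rpow_nonneg hq0.le _)
  have h1 : q ^ (-((d : ℝ) / k)) = (q ^ (-(d : ℝ))) ^ (1 / (k : ℝ)) := by
    rw [← Real.rpow_mul hq0.le]
    congr 1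
    ring
  rw [h1]
  apply Real.rpow_le_rpow (Real.rpow_nonneg hq0.le _) _ (by positivity)
  have h2 : 0 ≤ q ^ (-(N : ℝ)) := Real.rpow_nonneg hq0.le _
  have h3 : 0 ≤ q ^ ((d : ℝ) - k * N) := Real.rpow_nonneg hq0.le _
  linarith

theorem rhs_upper (q : ℝ) (hq : 1 < q) (k N d c : ℕ) (ε η : ℝ) (hη : 0 ≤ η) (hk : 2 ≤ k)
    (hdN : d ≤ N) (hNd : N ≤ d + c) :
    rhs q k N d ε η ≤ (q ^ c + 2) ^ η * q ^ ((1 + ε - η) * N) := by
  have hq0 : 0 < q := by linarith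
  have hk' : (2 : ℝ) ≤ k := by exact_mod_cast hk
  have hdN' : (d : ℝ) ≤ N := by exact_mod_cast hdN
  have hNd' : (N : ℝ) ≤ d + c := by exact_mod_cast hNd
  have h1 : q ^ (-(d : ℝ)) ≤ q ^ c * q ^ (-(N : ℝ)) := by
    rw [← Real.rpow_natCast q c, ← Real.rpow_add hq0]
    exact Real.rpow_le_rpow_of_exponent_le hq.le (by linarith)
  have h2 : q ^ ((d : ℝ) - k * N) ≤ q ^ (-(N : ℝ)) := by
    apply Real.rpow_le_rpow_of_exponent_le hq.le
    have : (0 : ℝ) ≤ N := Nat.cast_nonneg _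
    nlinarith
  have h3 : q ^ (-(d : ℝ)) + q ^ (-(N : ℝ)) + q ^ ((d : ℝ) - k * N)
      ≤ (q ^ c + 2) * q ^ (-(N : ℝ)) := by
    have : (q ^ c + 2) * q ^ (-(N : ℝ)) = q ^ c * q ^ (-(N : ℝ)) + q ^ (-(N : ℝ)) + q ^ (-(N : ℝ)) := by
      ring
    linarith
  have h0 : 0 ≤ q ^ (-(d : ℝ)) + q ^ (-(N : ℝ)) + q ^ ((d : ℝ) - k * N) := by positivity
  have h4 := Real.rpow_le_rpow h0 h3 hη
  unfold rhs
  calc q ^ ((1 + ε) * N) * (q ^ (-(d : ℝ)) + q ^ (-(N : ℝ)) + q ^ ((d : ℝ) - k * N)) ^ η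
      ≤ q ^ ((1 + ε) * N) * ((q ^ c + 2) * q ^ (-(N : ℝ))) ^ η :=
        mul_le_mul_of_nonneg_left h4 (Real.rpow_nonneg hq0.le _)
    _ = (q ^ c + 2) ^ η * q ^ ((1 + ε - η) * N) := by
        rw [Real.mul_rpow (by positivity) (Real.rpow_nonneg hq0.le _), ← Real.rpow_mul hq0.le]
        have e : (1 + ε - η) * (N : ℝ) = (1 + ε) * N + -(N : ℝ) * η := by ring
        rw [e, Real.rpow_add hq0]
        ring

end Pool.Agent.H614.WS
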