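import Pool.Agent.H614.WS.Basic

set_option autoImplicit false
set_option linter.unusedSectionVars false

open Polynomial Finset

namespace Pool.Agent.H614.WS

variable {F : Type} [Field F]

/-- index `a + (R+1) s`. -/
abbrev idx {K R : ℕ} (s : Fin K) (a : Fin (R + 1)) : Fin (K * (R + 1)) := finProdFinEquiv (s, a)

theorem idx_val {K R : ℕ} (s : Fin K) (a : Fin (R + 1)) :
    ((idx s a : Fin (K * (R + 1))) : ℕ) = a + (R + 1) * s := by
  simp [idx]

/-- the digits of `γ^(Q²)` at the indices `Q i + j`. -/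
theorem pw_val (γ : ℕ → F) (R : ℕ) (a a' c' : Fin (R + 1)) (s m : ℕ) :
    pw ((R + 1) ^ 2) γ ((R + 1) * ((a : ℕ) + (R + 1) * s) + ((a' : ℕ) + (R + 1) * ((c' : ℕ) + (R + 1) * m)))
      = if a' = Fin.last R then (if c' = a.rev then γ (s + m) else 0) else 0 := by
  unfold pw
  have ha := a.isLt
  have ha' := a'.isLt
  have hc' := c'.isLt
  by_cases h1 : a' = Fin.last R
  · rw [if_pos h1]
    have hv : (a' : ℕ) = R := by rw [h1]; simp
    have e1 : (R + 1) * ((a : ℕ) + (R + 1) * s) + ((a' : ℕ) + (R + 1) * ((c' : ℕ) + (R + 1) * m)) + 1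
        = (R + 1) * (((a : ℕ) + c' + 1) + (R + 1) * (s + m)) := by rw [hv]; ring
    rw [e1]
    by_cases h2 : c' = a.rev
    · rw [if_pos h2]
      have hv2 : (a : ℕ) + c' + 1 = R + 1 := by
        rw [h2, Fin.val_rev]; omega
      have e2 : (R + 1) * (((a : ℕ) + c' + 1) + (R + 1) * (s + m)) = (R + 1) ^ 2 * (s + m + 1) := by
        rw [hv2]; ring
      rw [e2, if_pos (dvd_mul_right _ _), Nat.mul_div_cancel_left _ (by positivity)]
      rfl
    · rw [if_neg h2, if_neg]
      intro hd
      apply h2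
      have hd2 : (R + 1) ∣ ((a : ℕ) + c' + 1) + (R + 1) * (s + m) := by
        rw [pow_two] at hd
        exact Nat.dvd_of_mul_dvd_mul_left (Nat.succ_pos R) hd
      have hd3 : (R + 1) ∣ ((a : ℕ) + c' + 1) := (Nat.dvd_add_left (dvd_mul_right _ _)).mp hd2
      obtain ⟨w, hw⟩ := hd3
      have hw1 : w = 1 := by
        rcases Nat.lt_or_ge w 2 with h | h
        · interval_cases w
          · omega
          · rfl
        · have : (R + 1) * 2 ≤ (R + 1) * w := Nat.mul_le_mul_left _ h
          omega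
      rw [hw1] at hw
      apply Fin.ext
      rw [Fin.val_rev]
      omega
  · rw [if_neg h1, if_neg]
    intro hd
    apply h1
    have hd1 : (R + 1) ∣ (R + 1) * ((a : ℕ) + (R + 1) * s)
        + ((a' : ℕ) + (R + 1) * ((c' : ℕ) + (R + 1) * m)) + 1 :=
      (Dvd.intro_left _ (by rw [← pow_two])).trans hd
    have e : (R + 1) * ((a : ℕ) + (R + 1) * s)
        + ((a' : ℕ) + (R + 1) * ((c' : ℕ) + (R + 1) * m)) + 1
        = (a' + 1) + (R + 1) * (((a : ℕ) + (R + 1) * s) + ((c' : ℕ) + (R + 1) * m)) := by ring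
    rw [e] at hd1
    have hd2 : (R + 1) ∣ (a' : ℕ) + 1 := (Nat.dvd_add_left (dvd_mul_right _ _)).mp hd1
    have := Nat.le_of_dvd (Nat.succ_pos _) hd2
    apply Fin.ext
    simp only [Fin.val_last]
    omega

theorem inner (R M : ℕ) (γ : ℕ → F) (v : Fin (M * (R + 1) * (R + 1)) → F) (s : ℕ)
    (a : Fin (R + 1)) :
    ∑ j : Fin (M * (R + 1) * (R + 1)),
        v j * pw ((R + 1) ^ 2) γ ((R + 1) * ((a : ℕ) + (R + 1) * s) + j)
      = ∑ m : Fin M, v (idx (idx m a.rev) (Fin.last R)) * γ (s + m) := by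
  rw [← finProdFinEquiv.sum_comp, Fintype.sum_prod_type]
  rw [← finProdFinEquiv.sum_comp, Fintype.sum_prod_type]
  refine Finset.sum_congr rfl (fun m _ => ?_)
  have h : ∀ (c' a' : Fin (R + 1)),
      v (finProdFinEquiv (finProdFinEquiv (m, c'), a')) * pw ((R + 1) ^ 2) γ
        ((R + 1) * ((a : ℕ) + (R + 1) * s) + (finProdFinEquiv (finProdFinEquiv (m, c'), a') : ℕ))
      = if a' = Fin.last R then (if c' = a.rev then
          v (idx (idx m a.rev) (Fin.last R)) * γ (s + m) else 0) else 0 := by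
    intro c' a'
    have e : ((finProdFinEquiv (finProdFinEquiv (m, c'), a') :
        Fin (M * (R + 1) * (R + 1))) : ℕ) = (a' : ℕ) + (R + 1) * ((c' : ℕ) + (R + 1) * m) := by
      simp
    rw [e, pw_val]
    by_cases h1 : a' = Fin.last R
    · rw [if_pos h1, if_pos h1]
      by_cases h2 : c' = a.rev
      · rw [if_pos h2, if_pos h2, h1, h2]
      · rw [if_neg h2, if_neg h2, mul_zero]
    · rw [if_neg h1, if_neg h1, mul_zero]
  simp_rw [h]
  simp

/-- Put together a function on `Fin (K (R+1))` from its values at the indices `≡ R` and the rest. -/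
def joinLast {K R : ℕ} (z : Fin K → F) (Y : Fin K × Fin R → F) : Fin (K * (R + 1)) → F :=
  fun i => Fin.lastCases (motive := fun _ => F) (z (finProdFinEquiv.symm i).1)
    (fun a => Y ((finProdFinEquiv.symm i).1, a)) (finProdFinEquiv.symm i).2

theorem joinLast_last {K R : ℕ} (z : Fin K → F) (Y : Fin K × Fin R → F) (s : Fin K) :
    joinLast z Y (idx s (Fin.last R)) = z s := by
  simp [joinLast, idx]

theorem joinLast_castSucc {K R : ℕ} (z : Fin K → F) (Y : Fin K × Fin R → F) (s : Fin K)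
    (a : Fin R) : joinLast z Y (idx s a.castSucc) = Y (s, a) := by
  simp [joinLast, idx]

/-- Put together from the values at the indices `≡ 0` and the rest. -/
def joinZero {K R : ℕ} (z : Fin K → F) (Y : Fin K × Fin R → F) : Fin (K * (R + 1)) → F :=
  fun i => Fin.cases (motive := fun _ => F) (z (finProdFinEquiv.symm i).1)
    (fun a => Y ((finProdFinEquiv.symm i).1, a)) (finProdFinEquiv.symm i).2

theorem joinZero_zero {K R : ℕ} (z : Fin K → F) (Y : Fin K × Fin R → F) (s : Fin K) :
    joinZero z Y (idx s 0) = z s := by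
  simp [joinZero, idx]

theorem joinZero_succ {K R : ℕ} (z : Fin K → F) (Y : Fin K × Fin R → F) (s : Fin K)
    (a : Fin R) : joinZero z Y (idx s a.succ) = Y (s, a) := by
  simp [joinZero, idx]

theorem exists_idx {K R : ℕ} (i : Fin (K * (R + 1))) : ∃ s a, i = (idx s a : Fin (K * (R + 1))) :=
  ⟨(finProdFinEquiv.symm i).1, (finProdFinEquiv.symm i).2, (Equiv.apply_symm_apply finProdFinEquiv i).symm⟩

/-- equivalence -/
def eLast (K R : ℕ) : (Fin K → F) × (Fin K × Fin R → F) ≃ (Fin (K * (R + 1)) → F) where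
  toFun q := joinLast q.1 q.2
  invFun v := (fun s => v (idx s (Fin.last R)), fun p => v (idx p.1 p.2.castSucc))
  left_inv q := by
    ext s
    · simp [joinLast_last]
    · simp [joinLast_castSucc]
  right_inv v := by
    funext i
    obtain ⟨s, a, rfl⟩ := exists_idx i
    refine Fin.lastCases ?_ (fun a => ?_) a
    · simp [joinLast_last]
    · simp [joinLast_castSucc]

/-- equivalence -/
def eZero (K R : ℕ) : (Fin K → F) × (Fin K × Fin R → F) ≃ (Fin (K * (R + 1)) → F) where
  toFun q := joinZero q.1 q.2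
  invFun v := (fun s => v (idx s 0), fun p => v (idx p.1 p.2.succ))
  left_inv q := by
    ext s
    · simp [joinZero_zero]
    · simp [joinZero_succ]
  right_inv v := by
    funext i
    obtain ⟨s, a, rfl⟩ := exists_idx i
    refine Fin.cases ?_ (fun a => ?_) a
    · simp [joinZero_zero]
    · simp [joinZero_succ]

theorem sum_last {A : Type*} [AddCommMonoid A] (K R : ℕ) (f : Fin (K * (R + 1)) → A) :
    ∑ i, f i = ∑ p : Fin K × Fin R, f (idx p.1 p.2.castSucc) + ∑ s : Fin K, f (idx s (Fin.last R)) := by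
  rw [← finProdFinEquiv.sum_comp, Fintype.sum_prod_type, Fintype.sum_prod_type,
    ← Finset.sum_add_distrib]
  refine Finset.sum_congr rfl (fun s _ => ?_)
  rw [Fin.sum_univ_castSucc]

theorem sum_zero {A : Type*} [AddCommMonoid A] (K R : ℕ) (f : Fin (K * (R + 1)) → A) :
    ∑ i, f i = ∑ s : Fin K, f (idx s 0) + ∑ p : Fin K × Fin R, f (idx p.1 p.2.succ) := by
  rw [← finProdFinEquiv.sum_comp, Fintype.sum_prod_type, Fintype.sum_prod_type,
    ← Finset.sum_add_distrib]
  refine Finset.sum_congr rfl (fun s _ => ?_)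
  rw [Fin.sum_univ_succ]

end Pool.Agent.H614.WS
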