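import Pool.Agent.H614.WS.Final
import Pool.Agent.H614.WS.Approx

set_option autoImplicit false
set_option linter.unusedSectionVars false

open Polynomial Finset

namespace Pool.Agent.H614.WS

variable {F : Type} [Field F]

/-- no nonzero polynomial `z` of degree `< d` has distance `< q^(-N)` from `α z` to `F[t]`. -/
def NS (α : ℕ → F) (N d : ℕ) : Prop :=
  ∀ z : F[X], z ≠ 0 → z.natDegree < d → ∃ s < N, res α (X ^ s * z) ≠ 0

theorem component (γ : ℕ → F) (n : ℕ) (hn : 1 ≤ n) (g : F[X]) (hg : g ≠ 0) :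
    ∃ i < n, ∃ G : F[X], G ≠ 0 ∧ G.natDegree ≤ g.natDegree / n ∧
      ∀ j, res (pw n γ) (X ^ (n * (1 + j) - i - 1) * g) = res γ (X ^ j * G) := by
  set d := g.natDegree with hd
  set i := d % n with hi
  set K := d / n with hK
  have hin : i < n := Nat.mod_lt _ hn
  have hdi : n * K + i = d := Nat.div_add_mod d n
  let G : F[X] := ∑ m ∈ range (K + 1), C (g.coeff (n * m + i)) * X ^ m
  have hGc : ∀ m ≤ K, G.coeff m = g.coeff (n * m + i) := by
    intro m hm
    simp only [G]
    rw [Polynomial.finsetSum_coeff, Finset.sum_eq_single m]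
    · simp
    · intro b _ hb
      rw [coeff_C_mul, coeff_X_pow, if_neg (fun h => hb h.symm), mul_zero]
    · intro h0
      exact absurd (Finset.mem_range.mpr (Nat.lt_succ_of_le hm)) h0
  have hG0 : G ≠ 0 := by
    intro h0
    have := hGc K le_rfl
    rw [h0, hdi] at this
    simp only [coeff_zero] at this
    exact hg (Polynomial.leadingCoeff_eq_zero.mp (by rw [Polynomial.leadingCoeff, ← hd]; exact this.symm))
  have hGdeg : G.natDegree ≤ K := by
    refine Polynomial.natDegree_sum_le_of_forall_le _ _ (fun m hm => ?_)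
    exact (Polynomial.natDegree_C_mul_X_pow_le _ _).trans (Nat.lt_succ_iff.mp (Finset.mem_range.mp hm))
  refine ⟨i, hin, G, hG0, hGdeg, fun j => ?_⟩
  have hs : i + 1 ≤ n * (1 + j) := by nlinarith
  rw [res_X_pow_mul _ g _ (n * (K + 1)) (by rw [← hd, ← hdi, Nat.mul_succ]; omega)]
  rw [res_X_pow_mul γ G j (K + 1) (by omega), sum_range_mul]
  refine Finset.sum_congr rfl (fun m hm => ?_)
  rw [Finset.sum_eq_single i]
  · rw [hGc m (Nat.lt_succ_iff.mp (Finset.mem_range.mp hm))]
    congr 1
    have e : n * m + i + (n * (1 + j) - i - 1) + 1 = n * (m + j + 1) := by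
      have : n * (m + j + 1) = n * m + n * (1 + j) := by ring
      omega
    unfold pw
    rw [e, if_pos (dvd_mul_right _ _), Nat.mul_div_cancel_left _ hn]
    rfl
  · intro a ha hai
    have han := Finset.mem_range.mp ha
    have e : n * m + a + (n * (1 + j) - i - 1) + 1 = n * (m + j) + (n + a - i) := by
      have : n * (m + j) + n = n * m + n * (1 + j) := by ring
      omega
    unfold pw
    rw [e, if_neg, mul_zero]
    intro hdv
    have hdv2 : n ∣ (n + a - i) := (Nat.dvd_add_right (dvd_mul_right _ _)).mp hdv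
    obtain ⟨w, hw⟩ := hdv2
    rcases Nat.lt_or_ge w 2 with hw2 | hw2
    · interval_cases w
      · omega
      · apply hai; omega
    · have : n * 2 ≤ n * w := Nat.mul_le_mul_left _ hw2
      omega
  · intro h0
    exact absurd (Finset.mem_range.mpr hin) h0

theorem NS_pw (γ : ℕ → F) (n M d : ℕ) (hn : 1 ≤ n) (h : NS γ M d) : NS (pw n γ) (n * M) (n * d) := by
  intro z hz hdeg
  obtain ⟨i, hi, G, hG, hGd, hres⟩ := component γ n hn z hz
  obtain ⟨j, hj, hne⟩ := h G hG (lt_of_le_of_lt hGd (Nat.div_lt_of_lt_mul hdeg))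
  refine ⟨n * (1 + j) - i - 1, ?_, ?_⟩
  · have h1 : n * (1 + j) ≤ n * M := Nat.mul_le_mul_left _ (by omega)
    have h2 : n * 1 ≤ n * (1 + j) := Nat.mul_le_mul_left _ (by omega)
    omega
  · rw [hres]; exact hne

/-- If `α = γ^n`, small denominators of `γ` give small denominators of `α`. -/
theorem NS_of_pw (γ : ℕ → F) (n N M D d : ℕ) (hn : 1 ≤ n) (hNM : N ≤ n * M)
    (hd : ∀ x, x < d → n * x < D) (h : NS (pw n γ) N D) : NS γ M d := by
  intro z hz hdeg
  have hz' : expand F n z ≠ 0 := by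
    intro h0
    exact hz ((Polynomial.expand_eq_zero hn).mp h0)
  have hdeg' : (expand F n z).natDegree < D := by
    rw [Polynomial.natDegree_expand, mul_comm]
    exact hd _ hdeg
  obtain ⟨s, hs, hne⟩ := h _ hz' hdeg'
  -- `res` of the expanded polynomial
  have key : res (pw n γ) (X ^ s * expand F n z)
      = ∑ l ∈ range (z.natDegree + 1), z.coeff l * pw n γ (n * l + s) := by
    have e : X ^ s * expand F n z = ∑ l ∈ range (z.natDegree + 1), C (z.coeff l) * X ^ (n * l + s) := by
      conv_lhs => rw [Polynomial.as_sum_range_C_mul_X_pow z]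
      rw [map_sum, Finset.mul_sum]
      refine Finset.sum_congr rfl (fun l _ => ?_)
      rw [map_mul, expand_C, map_pow, expand_X, ← pow_mul, pow_add]; ring
    rw [e, res_sum]
    exact Finset.sum_congr rfl (fun l _ => res_monomial _ _ _)
  by_cases hdv : n ∣ s + 1
  · obtain ⟨w, hw⟩ := hdv
    have hw1 : 1 ≤ w := by
      rcases Nat.eq_zero_or_pos w with h0 | h0
      · rw [h0] at hw; omega
      · exact h0
    refine ⟨w - 1, ?_, ?_⟩
    · have h1 : n * w ≤ n * M := by omega
      have h2 : w ≤ M := Nat.le_of_mul_le_mul_left h1 hn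
      omega
    · rw [res_X_pow_mul γ z (w - 1) (z.natDegree + 1) (by omega)]
      rw [key] at hne
      have e : ∀ l, pw n γ (n * l + s) = γ (l + (w - 1)) := by
        intro l
        have e1 : n * l + s + 1 = n * (l + w) := by rw [mul_add, ← hw]; ring
        unfold pw
        rw [e1, if_pos (dvd_mul_right _ _), Nat.mul_div_cancel_left _ hn]
        congr 1
        omega
      simp_rw [e] at hne
      exact hne
  · exfalso
    apply hne
    rw [key]
    refine Finset.sum_eq_zero (fun l _ => ?_)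
    unfold pw
    rw [if_neg, mul_zero]
    intro h1
    apply hdv
    have e1 : n * l + s + 1 = (s + 1) + n * l := by ring
    rw [e1] at h1
    exact (Nat.dvd_add_left (dvd_mul_right _ _)).mp h1

/-- A reduced fraction `a/g` with `|α - a/g| ≤ |g|^(-2)` and `deg g ≤ N` has no competitor. -/
theorem NS_of_approx (α : ℕ → F) (g : F[X]) (N : ℕ) (hN : g.natDegree ≤ N)
    (hcop : IsCoprime (ip α g) g) (happ : ∀ j, j + 1 < g.natDegree → res α (X ^ j * g) = 0) :
    NS α N g.natDegree := by
  intro z hz hdeg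
  by_contra hcon
  push Not at hcon
  have h1 : ip (fr α g) z = 0 := by
    ext i
    rw [coeff_ip, coeff_zero]
    refine Finset.sum_eq_zero (fun l hl => ?_)
    have hl' := Finset.mem_range.mp hl
    split_ifs with h
    · have : fr α g (l - 1 - i) = 0 := happ _ (by omega)
      rw [this, mul_zero]
    · rfl
  have h2 : ip (fr α z) g = 0 := by
    ext i
    rw [coeff_ip, coeff_zero]
    refine Finset.sum_eq_zero (fun l hl => ?_)
    have hl' := Finset.mem_range.mp hl
    split_ifs with h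
    · have : fr α z (l - 1 - i) = 0 := hcon _ (by omega)
      rw [this, mul_zero]
    · rfl
  have h3 := ip_mul α z g
  have h4 := ip_mul α g z
  rw [h1, add_zero] at h3
  rw [h2, add_zero, mul_comm g z] at h4
  have h5 : g ∣ z * ip α g := ⟨ip α z, by rw [← h3, h4]⟩
  have h6 : g ∣ z := hcop.symm.dvd_of_dvd_mul_right h5
  have h7 := Polynomial.natDegree_le_of_dvd h6 hz
  omega

variable [Fintype F] [DecidableEq F]

theorem card_sol {R M : ℕ} (γ ξ : ℕ → F) (d : ℕ) (hd : d ≤ M) (h : NS γ M d) :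
    ((Finset.univ.filter (fun y : Fin M × Fin R → F => Lam γ ξ y = 0)).card)
      ≤ Fintype.card F ^ ((M - d) * R) := by
  have hc : Fintype.card (Fin (M - d) × Fin R → F) = Fintype.card F ^ ((M - d) * R) := by simp
  rw [← hc, ← Finset.card_univ]
  refine Finset.card_le_card_of_injOn
    (fun y : Fin M × Fin R → F => fun p : Fin (M - d) × Fin R =>
      y (⟨p.1 + d, by have := p.1.isLt; omega⟩, p.2)) (fun _ _ => Finset.mem_coe.mpr (Finset.mem_univ _)) ?_
  intro y hy y' hy' heq
  simp only [Finset.coe_filter, Finset.mem_univ, true_and, Set.mem_setOf_eq] at hy hy'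
  funext p
  obtain ⟨m, a⟩ := p
  have key : (fun m : Fin M => y (m, a) - y' (m, a)) = 0 := by
    by_contra hne
    set z : Fin M → F := fun m : Fin M => y (m, a) - y' (m, a) with hz
    have hp : pol z ≠ 0 := by
      intro h0
      apply hne
      funext i
      rw [← coeff_pol z i, h0]
      simp
    have hdeg : (pol z).natDegree < d := by
      rw [Polynomial.natDegree_lt_iff_degree_lt hp, Polynomial.degree_lt_iff_coeff_zero]
      intro m hm
      rcases Nat.lt_or_ge m M with hmM | hmM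
      · have h1 := coeff_pol z ⟨m, hmM⟩
        simp only at h1
        rw [h1, hz]
        have h2 := congrFun heq (⟨m - d, by omega⟩, a)
        simp only at h2
        have e : (⟨m - d + d, by omega⟩ : Fin M) = ⟨m, hmM⟩ := Fin.ext (by simp; omega)
        rw [e] at h2
        exact sub_eq_zero.mpr h2
      · exact coeff_pol_ge z m hmM
    obtain ⟨s, hs, hne2⟩ := h (pol z) hp hdeg
    apply hne2
    have hdM : (pol z).natDegree < M := by omega
    rw [res_X_pow_mul γ (pol z) s M hdM, Finset.sum_range]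
    have hsM : s < M * (R + 1) := by nlinarith
    have e1 := congrFun hy (⟨s, hsM⟩, a.rev)
    have e2 := congrFun hy' (⟨s, hsM⟩, a.rev)
    simp only [Lam, Fin.rev_rev, Pi.zero_apply] at e1 e2
    have e3 : ∑ m : Fin M, (pol z).coeff m * γ (m + s)
        = ∑ m : Fin M, y (m, a) * γ (s + m) - ∑ m : Fin M, y' (m, a) * γ (s + m) := by
      rw [← Finset.sum_sub_distrib]
      refine Finset.sum_congr rfl (fun m _ => ?_)
      rw [coeff_pol, hz, add_comm (m : ℕ) s]
      ring
    rw [e3]
    linear_combination e1 - e2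
  have := congrFun key m
  simpa [sub_eq_zero] using this

theorem descend2 (ψ : AddChar F ℂ) (hψ : ψ ≠ 1) (R M d : ℕ) (hd : d ≤ M) (γ ξ : ℕ → F)
    (h : NS γ M d) (E : ℕ) (hE : ∀ ξ', ‖T ψ (R + 1) M γ ξ'‖ ≤ (Fintype.card F : ℝ) ^ E) :
    ‖T ψ (R + 1) (M * (R + 1) * (R + 1)) (pw ((R + 1) ^ 2) γ) ξ‖
      ≤ (Fintype.card F : ℝ) ^ (M * (R + 1) * R + (M - d) * R + E) := by
  rw [T_split ψ hψ, norm_mul, norm_pow, Complex.norm_natCast]
  have h1 : ‖∑ y : Fin M × Fin R → F, if Lam γ ξ y = 0 then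
          (∑ u : Fin M → F, ψ (Phi γ ξ (joinZero u y))) else 0‖
      ≤ (Fintype.card F : ℝ) ^ ((M - d) * R) * (Fintype.card F : ℝ) ^ E := by
    rw [← Finset.sum_filter]
    refine (norm_sum_le _ _).trans ?_
    have h2 : ∀ y ∈ Finset.univ.filter (fun y : Fin M × Fin R → F => Lam γ ξ y = 0),
        ‖∑ u : Fin M → F, ψ (Phi γ ξ (joinZero u y))‖ ≤ (Fintype.card F : ℝ) ^ E := by
      intro y _
      have : ∀ u : Fin M → F, ψ (Phi γ ξ (joinZero u y))
          = ψ (∑ i : Fin M, u i * (∑ j : Fin M, u j * γ ((R + 1) * i + j) + xi' γ ξ y i))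
            * ψ (∑ p : Fin M × Fin R, y p * ξ (R + (R + 1) * ((p.2 : ℕ) + 1 + (R + 1) * p.1))) := by
        intro u
        rw [Phi_join, AddChar.map_add_eq_mul]
      simp_rw [this]
      rw [← Finset.sum_mul, norm_mul, AddChar.norm_apply, mul_one]
      exact hE (xi' γ ξ y)
    refine (Finset.sum_le_card_nsmul _ _ _ h2).trans ?_
    rw [nsmul_eq_mul]
    refine mul_le_mul_of_nonneg_right ?_ (by positivity)
    have := card_sol (R := R) γ ξ d hd h
    exact_mod_cast this
  calc (Fintype.card F : ℝ) ^ (M * (R + 1) * R) * _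
      ≤ (Fintype.card F : ℝ) ^ (M * (R + 1) * R)
        * ((Fintype.card F : ℝ) ^ ((M - d) * R) * (Fintype.card F : ℝ) ^ E) :=
        mul_le_mul_of_nonneg_left h1 (by positivity)
    _ = _ := by rw [pow_add, pow_add]; ring

theorem iter2 (ψ : AddChar F ℂ) (hψ : ψ ≠ 1) (R : ℕ) (γ : ℕ → F) (M d : ℕ) (hd : d ≤ M)
    (h : NS γ M d) (r : ℕ) :
    ∃ E : ℕ, E * (R + 2) + ((R + 1) ^ (2 * r) - 1) * d = (R + 2) * ((R + 1) ^ (2 * r) * M) ∧
      ∀ ξ, ‖T ψ (R + 1) ((R + 1) ^ (2 * r) * M) (pw ((R + 1) ^ (2 * r)) γ) ξ‖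
        ≤ (Fintype.card F : ℝ) ^ E := by
  induction r with
  | zero =>
    refine ⟨M, by simp; ring, fun ξ => ?_⟩
    simp only [Nat.mul_zero, pow_zero, one_mul, pw_one]
    exact T_le ψ (R + 1) M γ ξ
  | succ r ih =>
    obtain ⟨E, hE, hb⟩ := ih
    set n := (R + 1) ^ (2 * r) with hn
    have hn1 : 1 ≤ n := Nat.one_le_pow _ _ (Nat.succ_pos R)
    have hlev : (R + 1) ^ (2 * (r + 1)) * M = n * M * (R + 1) * (R + 1) := by
      rw [hn]; ring
    have e : (R + 1) ^ (2 * (r + 1)) = (R + 1) ^ 2 * n := by rw [hn]; ring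
    have hpw : pw ((R + 1) ^ (2 * (r + 1))) γ = pw ((R + 1) ^ 2) (pw n γ) := by
      rw [pw_pw γ _ _ (Nat.one_le_pow _ _ (Nat.succ_pos R)), e]
    have hnd : n * d ≤ n * M := Nat.mul_le_mul_left _ hd
    rw [hlev, hpw, e]
    refine ⟨n * M * (R + 1) * R + (n * M - n * d) * R + E, ?_, fun ξ => ?_⟩
    · obtain ⟨x, hx⟩ := Nat.exists_eq_add_of_le hnd
      obtain ⟨n', hn'⟩ := Nat.exists_eq_add_of_le hn1
      have h1 : n * M - n * d = x := by omega
      rw [h1]
      have h2 : n - 1 = n' := by omega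
      rw [h2] at hE
      have h3 : (R + 1) ^ 2 * n - 1 = (R ^ 2 + 2 * R) * n + n' := by
        have : (R + 1) ^ 2 * n = (R ^ 2 + 2 * R) * n + n := by ring
        omega
      rw [h3]
      zify at hE hx ⊢
      have hn'' : (n : ℤ) = 1 + n' := by exact_mod_cast hn'
      linear_combination hE + ((R : ℤ) * (R + 2)) * (-hx)
    · exact descend2 ψ hψ R (n * M) (n * d) hnd (pw n γ) ξ (NS_pw γ n M d hn1 h) E hb

end Pool.Agent.H614.WS
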